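import Mathlib

set_option autoImplicit false

/-!
# Sums of `k`-th powers modulo `q`
-/

namespace Pool.Agent.R500.WB

open Finset

section group

variable {G : Type*} [CommGroup G] [Finite G]

lemma index_pow_range (k : ℕ) :
    (powMonoidHom k : G →* G).range.index = Nat.card (powMonoidHom k : G →* G).ker := by
  have h1 := Subgroup.card_mul_index (powMonoidHom k : G →* G).range
  have h2 := Subgroup.card_mul_index (powMonoidHom k : G →* G).ker
  have h3 := Subgroup.index_ker (powMonoidHom k : G →* G)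
  have h4 : 0 < Nat.card (powMonoidHom k : G →* G).range := Nat.card_pos
  rw [h3] at h2
  refine Nat.eq_of_mul_eq_mul_left h4 ?_
  rw [h1, ← h2, mul_comm]

lemma card_ker_le (C : Subgroup G) [IsCyclic C] {k : ℕ} (hk : 0 < k) :
    Nat.card (powMonoidHom k : G →* G).ker ≤ Nat.gcd k (Nat.card C) * C.index := by
  classical
  have h1 := Subgroup.card_mul_index (C.subgroupOf (powMonoidHom k : G →* G).ker)
  rw [← h1]
  refine Nat.mul_le_mul ?_ ?_
  · haveI : Fintype C := Fintype.ofFinite C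
    have hg : 0 < Nat.gcd k (Nat.card C) := Nat.gcd_pos_of_pos_left _ hk
    have h2 := IsCyclic.card_pow_eq_one_le (α := C) hg
    refine le_trans ?_ h2
    rw [← Fintype.card_coe, ← Nat.card_eq_fintype_card]
    have hmem : ∀ x : C.subgroupOf (powMonoidHom k : G →* G).ker,
        (⟨x.1.1, x.2⟩ : C) ∈ ({a : C | a ^ Nat.gcd k (Nat.card C) = 1} : Finset C) := by
      intro x
      rw [Finset.mem_filter]
      refine ⟨Finset.mem_univ _, ?_⟩
      rw [pow_gcd_eq_one]
      refine ⟨?_, pow_card_eq_one'⟩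
      have h3 : (x.1.1 : G) ^ k = 1 := x.1.2
      exact Subtype.ext h3
    refine Nat.card_le_card_of_injective (fun x => ⟨⟨x.1.1, x.2⟩, hmem x⟩) ?_
    intro x y hxy
    have h4 : x.1.1 = y.1.1 := congrArg (fun z => z.1.1) hxy
    exact Subtype.ext (Subtype.ext h4)
  · have h2 := Subgroup.relIndex_le_of_le_right (H := C)
      (K := (powMonoidHom k : G →* G).ker) (L := ⊤) le_top (by
        rw [Subgroup.relIndex_top_right]
        exact Subgroup.index_ne_zero_of_finite)
    rw [Subgroup.relIndex_top_right] at h2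
    exact h2

end group

lemma index_odd {p e k : ℕ} (hp : p.Prime) (hp2 : p ≠ 2) (hk : 0 < k) :
    (powMonoidHom k : (ZMod (p ^ e))ˣ →* (ZMod (p ^ e))ˣ).range.index ≤ k := by
  haveI : Fact p.Prime := ⟨hp⟩
  haveI := ZMod.isCyclic_units_of_prime_pow p hp hp2 e
  haveI : NeZero (p ^ e) := ⟨(pow_pos hp.pos e).ne'⟩
  rw [index_pow_range]
  have h1 := card_ker_le (G := (ZMod (p ^ e))ˣ) ⊤ hk
  rw [Subgroup.index_top, mul_one] at h1
  exact h1.trans (Nat.gcd_le_left _ hk)

lemma index_two {e k : ℕ} (hk : 0 < k) :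
    (powMonoidHom k : (ZMod (2 ^ e))ˣ →* (ZMod (2 ^ e))ˣ).range.index ≤
      2 * Nat.gcd k (2 ^ e) := by
  haveI : NeZero (2 ^ e) := ⟨(pow_pos two_pos e).ne'⟩
  have hg : 0 < Nat.gcd k (2 ^ e) := Nat.gcd_pos_of_pos_left _ hk
  by_cases he : e < 2
  · -- the group is trivial
    have h1 : Nat.card (ZMod (2 ^ e))ˣ ≤ 2 := by
      rw [Nat.card_eq_fintype_card, ZMod.card_units_eq_totient]
      exact (Nat.totient_le _).trans ((Nat.pow_le_pow_right two_pos (by omega : e ≤ 1)).trans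
        (by norm_num))
    have h2 := Subgroup.card_mul_index
      (powMonoidHom k : (ZMod (2 ^ e))ˣ →* (ZMod (2 ^ e))ˣ).range
    have h3 : 0 < Nat.card (powMonoidHom k : (ZMod (2 ^ e))ˣ →* (ZMod (2 ^ e))ˣ).range :=
      Nat.card_pos
    nlinarith
  · obtain ⟨n, rfl⟩ : ∃ n, e = n + 2 := ⟨e - 2, by omega⟩
    have h5 : IsUnit (5 : ZMod (2 ^ (n + 2))) := by
      have : (5 : ZMod (2 ^ (n + 2))) = ((5 : ℕ) : ZMod (2 ^ (n + 2))) := by norm_cast
      rw [this, ZMod.isUnit_iff_coprime]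
      exact Nat.Coprime.pow_right _ (by norm_num)
    have hord : orderOf h5.unit = 2 ^ n := by
      rw [← orderOf_injective _ Units.coeHom_injective h5.unit, Units.coeHom_apply,
        IsUnit.unit_spec]
      exact ZMod.orderOf_five n
    have hcard : Nat.card (Subgroup.zpowers h5.unit) = 2 ^ n := by
      rw [Nat.card_zpowers, hord]
    have hidx : (Subgroup.zpowers h5.unit).index = 2 := by
      have h6 := Subgroup.card_mul_index (Subgroup.zpowers h5.unit)
      rw [hcard, Nat.card_eq_fintype_card, ZMod.card_units_eq_totient,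
        Nat.totient_prime_pow_succ Nat.prime_two] at h6
      have h7 : 2 ^ n * (Subgroup.zpowers h5.unit).index = 2 ^ n * 2 := by
        rw [h6, pow_succ]
        norm_num
      exact Nat.eq_of_mul_eq_mul_left (pow_pos two_pos n) h7
    rw [index_pow_range]
    have h8 := card_ker_le (G := (ZMod (2 ^ (n + 2)))ˣ) (Subgroup.zpowers h5.unit) hk
    rw [hcard, hidx] at h8
    have h9 : Nat.gcd k (2 ^ n) ≤ Nat.gcd k (2 ^ (n + 2)) :=
      Nat.le_of_dvd hg (Nat.gcd_dvd_gcd_of_dvd_right k (pow_dvd_pow 2 (by omega)))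
    omega

/-- `z` is a sum of `s` terms `k`-th powers. -/
def Sm {N : ℕ} (k s : ℕ) (z : ZMod N) : Prop :=
  ∃ l : List (ZMod N), l.length = s ∧ (l.map (fun y => y ^ k)).sum = z

section Sm

variable {N k : ℕ}

lemma Sm.succ (hk : 0 < k) {s : ℕ} {z : ZMod N} (h : Sm k s z) : Sm k (s + 1) z := by
  obtain ⟨l, h1, h2⟩ := h
  refine ⟨0 :: l, by simp [h1], ?_⟩
  rw [List.map_cons, List.sum_cons, zero_pow hk.ne', zero_add, h2]

lemma Sm.mono (hk : 0 < k) {s t : ℕ} (hst : s ≤ t) {z : ZMod N} (h : Sm k s z) : Sm k t z := by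
  induction hst with
  | refl => exact h
  | step _ ih => exact ih.succ hk

lemma Sm.add_one {s : ℕ} {z : ZMod N} (h : Sm k s z) : Sm k (s + 1) (z + 1) := by
  obtain ⟨l, h1, h2⟩ := h
  refine ⟨1 :: l, by simp [h1], ?_⟩
  rw [List.map_cons, List.sum_cons, one_pow, h2, add_comm]

lemma Sm.mul {s : ℕ} {z : ZMod N} (h : Sm k s z) (y : ZMod N) : Sm k s (z * y ^ k) := by
  obtain ⟨l, h1, h2⟩ := h
  refine ⟨l.map (fun x => x * y), by simp [h1], ?_⟩
  rw [← h2]
  clear h1 h2
  induction l with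
  | nil => simp
  | cons x l ih =>
    simp only [List.map_cons, List.sum_cons, add_mul, mul_pow]
    rw [← ih]

lemma Sm.natCast (k n : ℕ) : Sm k n (n : ZMod N) := by
  induction n with
  | zero => exact ⟨[], rfl, by simp⟩
  | succ n ih =>
    push_cast
    exact ih.add_one

lemma exists_Sm [NeZero N] (k : ℕ) (z : ZMod N) : ∃ s, Sm k s z := by
  refine ⟨z.val, ?_⟩
  have := Sm.natCast (N := N) k z.val
  rwa [ZMod.natCast_zmod_val] at this

/-- The least number of `k`-th powers. -/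
noncomputable def sg (k : ℕ) (z : ZMod N) : ℕ := sInf {s | Sm k s z}

lemma sg_spec [NeZero N] (z : ZMod N) : Sm k (sg k z) z := Nat.sInf_mem (exists_Sm k z)

lemma sg_le {s : ℕ} {z : ZMod N} (h : Sm k s z) : sg k z ≤ s := Nat.sInf_le h

lemma sg_add_one_le [NeZero N] (z : ZMod N) : sg k (z + 1) ≤ sg k z + 1 :=
  sg_le (sg_spec z).add_one

lemma sg_mul [NeZero N] (z : ZMod N) (u : (ZMod N)ˣ) : sg k (z * (u : ZMod N) ^ k) = sg k z := by
  apply le_antisymm
  · exact sg_le ((sg_spec z).mul _)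
  · have h1 := sg_le ((sg_spec (k := k) (z * (u : ZMod N) ^ k)).mul ((u⁻¹ : (ZMod N)ˣ) : ZMod N))
    have h2 : z * (u : ZMod N) ^ k * ((u⁻¹ : (ZMod N)ˣ) : ZMod N) ^ k = z := by
      rw [mul_assoc, ← mul_pow, Units.mul_inv, one_pow, mul_one]
    rwa [h2] at h1

end Sm

/-- **The growth of the sums of `k`-th powers modulo a prime power.** -/
theorem growth {p e k : ℕ} (hp : p.Prime) (he : 0 < e) (hk : 0 < k) {r : ℕ}
    (hr : (powMonoidHom k : (ZMod (p ^ e))ˣ →* (ZMod (p ^ e))ˣ).range.index ≤ r)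
    (z : ZMod (p ^ e)) : Sm k (2 * r) z := by
  classical
  haveI : NeZero (p ^ e) := ⟨(pow_pos hp.pos e).ne'⟩
  have hN : 1 < p ^ e := Nat.one_lt_pow he.ne' hp.one_lt
  haveI : Fact (1 < p ^ e) := ⟨hN⟩
  haveI : Nontrivial (ZMod (p ^ e)) := ZMod.nontrivial _
  obtain ⟨H, hH⟩ : ∃ H, H = (powMonoidHom k : (ZMod (p ^ e))ˣ →* (ZMod (p ^ e))ˣ).range := ⟨_, rfl⟩
  rw [← hH] at hr
  obtain ⟨V, hV⟩ : ∃ V : Finset ℕ, V =
    (Finset.univ : Finset ((ZMod (p ^ e))ˣ)).image
      (fun u : (ZMod (p ^ e))ˣ => sg k (u : ZMod (p ^ e))) := ⟨_, rfl⟩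
  -- the number of values
  have hVr : V.card ≤ r := by
    refine le_trans ?_ hr
    haveI : Fintype ((ZMod (p ^ e))ˣ ⧸ H) := Fintype.ofFinite _
    have h1 : V ⊆ (Finset.univ : Finset ((ZMod (p ^ e))ˣ ⧸ H)).image
        (fun c => sg k ((Quotient.out c : (ZMod (p ^ e))ˣ) : ZMod (p ^ e))) := by
      intro v hv
      rw [hV, Finset.mem_image] at hv
      obtain ⟨u, -, rfl⟩ := hv
      rw [Finset.mem_image]
      refine ⟨(QuotientGroup.mk u : (ZMod (p ^ e))ˣ ⧸ H), Finset.mem_univ _, ?_⟩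
      have h2 : (QuotientGroup.mk (Quotient.out (QuotientGroup.mk u : (ZMod (p ^ e))ˣ ⧸ H)) :
          (ZMod (p ^ e))ˣ ⧸ H) = QuotientGroup.mk u := Quotient.out_eq _
      rw [QuotientGroup.eq] at h2
      generalize Quotient.out (QuotientGroup.mk u : (ZMod (p ^ e))ˣ ⧸ H) = w at h2 ⊢
      rw [hH, MonoidHom.mem_range] at h2
      obtain ⟨y, hy⟩ := h2
      have h3 : u = w * y ^ k := by
        rw [powMonoidHom_apply] at hy
        rw [hy, mul_inv_cancel_left]
      conv_rhs => rw [h3]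
      rw [Units.val_mul, Units.val_pow_eq_pow_val, sg_mul]
    refine (Finset.card_le_card h1).trans (Finset.card_image_le.trans ?_)
    rw [Finset.card_univ, ← Nat.card_eq_fintype_card]
    rfl
  have hmem : ∀ n : ℕ, Nat.Coprime n p → sg k ((n : ℕ) : ZMod (p ^ e)) ∈ V := by
    intro n hn
    have hu : IsUnit ((n : ℕ) : ZMod (p ^ e)) := by
      rw [ZMod.isUnit_iff_coprime]
      exact Nat.Coprime.pow_right e hn
    rw [hV, Finset.mem_image]
    exact ⟨hu.unit, Finset.mem_univ _, by rw [IsUnit.unit_spec]⟩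
  have hone : sg k ((1 : ℕ) : ZMod (p ^ e)) = 1 := by
    apply le_antisymm
    · exact sg_le (Sm.natCast k 1)
    · by_contra hcon
      have h1 := sg_spec (k := k) ((1 : ℕ) : ZMod (p ^ e))
      have h2 : sg k ((1 : ℕ) : ZMod (p ^ e)) = 0 := by omega
      rw [h2] at h1
      obtain ⟨l, h3, h4⟩ := h1
      rw [List.length_eq_zero_iff.1 h3] at h4
      simp at h4
  have h1V : 1 ∈ V := by
    have := hmem 1 (Nat.coprime_one_left p)
    rwa [hone] at this
  -- consecutive values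
  have hcons : ∀ (u : (ZMod (p ^ e))ˣ) (v : ℕ), 1 ≤ v → v ≤ sg k (u : ZMod (p ^ e)) →
      v ∈ V ∨ v + 1 ∈ V := by
    intro u v hv1 hv
    have hex : ∃ n : ℕ, 1 ≤ n ∧ Nat.Coprime n p ∧ v ≤ sg k ((n : ℕ) : ZMod (p ^ e)) := by
      refine ⟨(u : ZMod (p ^ e)).val, ?_, ?_, ?_⟩
      · rw [Nat.one_le_iff_ne_zero, Ne, ZMod.val_eq_zero]
        exact u.ne_zero
      · have h1 := ZMod.val_coe_unit_coprime u
        exact Nat.Coprime.coprime_dvd_right (dvd_pow_self p he.ne') h1
      · rw [ZMod.natCast_zmod_val]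
        exact hv
    obtain ⟨hn1, hn2, hn3⟩ := Nat.find_spec hex
    have hmin : ∀ m < Nat.find hex, 1 ≤ m → Nat.Coprime m p →
        sg k ((m : ℕ) : ZMod (p ^ e)) < v := by
      intro m hm h1 h2
      by_contra hcon
      exact Nat.find_min hex hm ⟨h1, h2, by omega⟩
    obtain ⟨n, hn⟩ : ∃ n, n = Nat.find hex := ⟨_, rfl⟩
    rw [← hn] at hn1 hn2 hn3 hmin
    have hnV := hmem n hn2
    have hadd : ∀ m : ℕ, sg k (((m + 1 : ℕ)) : ZMod (p ^ e)) ≤ sg k ((m : ℕ) : ZMod (p ^ e)) + 1 := by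
      intro m
      push_cast
      exact sg_add_one_le _
    by_cases h1 : n = 1
    · rw [h1, hone] at hn3 hnV
      have : v = 1 := by omega
      rw [this]
      exact Or.inl h1V
    · obtain ⟨m, rfl⟩ : ∃ m, n = m + 1 := ⟨n - 1, by omega⟩
      by_cases h2 : Nat.Coprime m p
      · have h3 := hmin m (by omega) (by omega) h2
        have h4 := hadd m
        left
        have : sg k (((m + 1 : ℕ)) : ZMod (p ^ e)) = v := by omega
        rwa [this] at hnV
      · have h3 : p ∣ m := by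
          rw [Nat.coprime_comm, hp.coprime_iff_not_dvd] at h2
          exact not_not.1 h2
        have h4 : 2 ≤ m := by
          have := Nat.le_of_dvd (by omega) h3
          have := hp.two_le
          omega
        obtain ⟨m', rfl⟩ : ∃ m', m = m' + 1 := ⟨m - 1, by omega⟩
        have h5 : Nat.Coprime m' p := by
          rw [Nat.coprime_comm, hp.coprime_iff_not_dvd]
          intro h6
          have h7 := (Nat.dvd_add_right h6).1 h3
          exact hp.one_lt.ne' (Nat.dvd_one.1 h7)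
        have h6 := hmin m' (by omega) (by omega) h5
        have h7 := hadd m'
        have h8 := hadd (m' + 1)
        have h9 : sg k (((m' + 1 + 1 : ℕ)) : ZMod (p ^ e)) = v ∨
            sg k (((m' + 1 + 1 : ℕ)) : ZMod (p ^ e)) = v + 1 := by omega
        rcases h9 with h9 | h9
        · left; rwa [h9] at hnV
        · right; rwa [h9] at hnV
  -- the bound for the units
  have hunit : ∀ u : (ZMod (p ^ e))ˣ, sg k (u : ZMod (p ^ e)) ≤ 2 * r - 1 := by
    intro u
    have h1 : Finset.Icc 1 (sg k (u : ZMod (p ^ e))) ⊆ V ∪ (V.erase 1).image (fun w => w - 1) := by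
      intro v hv
      rw [Finset.mem_Icc] at hv
      rw [Finset.mem_union]
      rcases hcons u v hv.1 hv.2 with h | h
      · exact Or.inl h
      · right
        rw [Finset.mem_image]
        exact ⟨v + 1, Finset.mem_erase.2 ⟨by omega, h⟩, by omega⟩
    have h2 := Finset.card_le_card h1
    rw [Nat.card_Icc, Nat.add_sub_cancel] at h2
    have h3 := Finset.card_union_le V ((V.erase 1).image (fun w => w - 1))
    have h4 := Finset.card_image_le (s := V.erase 1) (f := fun w => w - 1)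
    rw [Finset.card_erase_of_mem h1V] at h4
    have h5 : 0 < V.card := Finset.card_pos.2 ⟨1, h1V⟩
    omega
  have hr1 : 1 ≤ r := by
    have : 0 < V.card := Finset.card_pos.2 ⟨1, h1V⟩
    omega
  by_cases hz : IsUnit z
  · obtain ⟨u, rfl⟩ := hz
    exact (sg_spec (u : ZMod (p ^ e))).mono hk ((hunit u).trans (by omega))
  · have h1 : IsUnit (z - 1) := by
      have h2 : z - 1 = ((z.val + (p ^ e - 1) : ℕ) : ZMod (p ^ e)) := by
        rw [Nat.cast_add, ZMod.natCast_zmod_val, Nat.cast_sub hN.le, ZMod.natCast_self]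
        push_cast
        ring
      have h3 : p ∣ z.val := by
        by_contra hcon
        apply hz
        have h4 : z = ((z.val : ℕ) : ZMod (p ^ e)) := (ZMod.natCast_zmod_val z).symm
        rw [h4, ZMod.isUnit_iff_coprime]
        refine Nat.Coprime.pow_right e ?_
        rw [Nat.coprime_comm, hp.coprime_iff_not_dvd]
        exact hcon
      rw [h2, ZMod.isUnit_iff_coprime]
      refine Nat.Coprime.pow_right e ?_
      rw [Nat.coprime_comm, hp.coprime_iff_not_dvd]
      intro hcon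
      have h4 : p ∣ p ^ e - 1 := (Nat.dvd_add_right h3).1 hcon
      have h5 : p ∣ p ^ e := dvd_pow_self p he.ne'
      have h6 : p ∣ 1 := by
        have := (Nat.dvd_sub h5 h4)
        have h7 : p ^ e - (p ^ e - 1) = 1 := by omega
        rwa [h7] at this
      exact hp.one_lt.ne' (Nat.dvd_one.1 h6)
    obtain ⟨u, hu⟩ := h1
    have h2 : Sm k (2 * r - 1) (z - 1) := by
      rw [← hu]
      exact (sg_spec (u : ZMod (p ^ e))).mono hk (hunit u)
    have h3 := h2.add_one
    rw [sub_add_cancel] at h3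
    have h4 : 2 * r - 1 + 1 = 2 * r := by omega
    rwa [h4] at h3

/-- every residue class modulo `q` contains a sum of `s` terms `k`-th powers -/
def Loc (k s q : ℕ) : Prop := ∀ n : ℕ, ∃ ρ : Fin s → ℕ, ∑ i, ρ i ^ k ≡ n [MOD q]

lemma Loc.of_Sm {k s N : ℕ} [NeZero N] (h : ∀ z : ZMod N, Sm k s z) : Loc k s N := by
  intro n
  obtain ⟨l, h1, h2⟩ := h (n : ZMod N)
  subst h1
  refine ⟨fun i => (l.get i).val, ?_⟩
  rw [← ZMod.natCast_eq_natCast_iff, ← h2]
  push_cast
  simp only [ZMod.natCast_val, ZMod.cast_id', id_eq]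
  rw [← List.sum_ofFn]
  congr 1
  conv_rhs => rw [← List.ofFn_get l]
  rw [List.map_ofFn]
  rfl

lemma Loc.one (k s : ℕ) : Loc k s 1 := fun n => ⟨fun _ => 0, Nat.modEq_one⟩

lemma Loc.mul {k s a b : ℕ} (hab : Nat.Coprime a b) (ha : Loc k s a) (hb : Loc k s b) :
    Loc k s (a * b) := by
  intro n
  obtain ⟨ρ, hρ⟩ := ha n
  obtain ⟨σ, hσ⟩ := hb n
  refine ⟨fun i => Nat.chineseRemainder hab (ρ i) (σ i), ?_⟩
  rw [← Nat.modEq_and_modEq_iff_modEq_mul hab]
  constructor
  · refine Nat.ModEq.trans ?_ hρ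
    exact Nat.ModEq.sum fun i _ => Nat.ModEq.pow k (Nat.chineseRemainder hab (ρ i) (σ i)).2.1
  · refine Nat.ModEq.trans ?_ hσ
    exact Nat.ModEq.sum fun i _ => Nat.ModEq.pow k (Nat.chineseRemainder hab (ρ i) (σ i)).2.2

lemma Loc.of_prime_pow {k s : ℕ} (h : ∀ p e : ℕ, p.Prime → 0 < e → Loc k s (p ^ e)) {q : ℕ}
    (hq : 1 ≤ q) : Loc k s q := by
  induction q using Nat.recOnPosPrimePosCoprime with
  | prime_pow p n hp hn => exact h p n hp hn
  | zero => omega
  | one => exact Loc.one k s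
  | coprime a b ha hb hab iha ihb => exact (iha (by omega)).mul hab (ihb (by omega))

lemma Loc.mono {k s t q : ℕ} (hk : 0 < k) (hst : s ≤ t) (h : Loc k s q) : Loc k t q := by
  intro n
  obtain ⟨ρ, hρ⟩ := h n
  obtain ⟨d, rfl⟩ := Nat.exists_eq_add_of_le hst
  refine ⟨Fin.append ρ (fun _ => 0), ?_⟩
  rw [Fin.sum_univ_add]
  simp only [Fin.append_left, Fin.append_right, zero_pow hk.ne', Finset.sum_const_zero, add_zero]
  exact hρ

/-- the bound for a prime power -/
lemma Loc.prime_pow {k s : ℕ} (hk : 0 < k) (hs : 2 * k ≤ s)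
    (hs2 : ∀ e, 4 * Nat.gcd k (2 ^ e) ≤ s) (p e : ℕ) (hp : p.Prime) (he : 0 < e) :
    Loc k s (p ^ e) := by
  haveI : NeZero (p ^ e) := ⟨(pow_pos hp.pos e).ne'⟩
  apply Loc.of_Sm
  intro z
  by_cases hp2 : p = 2
  · subst hp2
    refine (growth hp he hk (index_two hk) z).mono hk ?_
    have := hs2 e
    omega
  · exact (growth hp he hk (index_odd hp hp2 hk) z).mono hk hs

/-- **Every residue class contains a sum of `4 k` terms `k`-th powers.** -/
theorem Loc.four {k q : ℕ} (hk : 0 < k) (hq : 1 ≤ q) : Loc k (4 * k) q := by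
  refine Loc.of_prime_pow (Loc.prime_pow hk (by omega) fun e => ?_) hq
  have := Nat.gcd_le_left (2 ^ e) hk
  omega

/-- **Every residue class contains a sum of `2 k + 1` terms `k`-th powers** if `k` is not `2 ^ a`
with `a ≥ 2`. -/
theorem Loc.two {k q : ℕ} (hk : 0 < k) (hk2 : ∀ a, 2 ≤ a → k ≠ 2 ^ a) (hq : 1 ≤ q) :
    Loc k (2 * k + 1) q := by
  by_cases h1 : k = 1
  · subst h1
    intro n
    refine ⟨![n, 0, 0], ?_⟩
    simp [Fin.sum_univ_three, Nat.ModEq]
  by_cases h2 : k = 2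
  · subst h2
    have h3 : Loc 2 4 q := by
      intro n
      obtain ⟨a, b, c, d, h⟩ := Nat.sum_four_squares n
      refine ⟨![a, b, c, d], ?_⟩
      rw [← h]
      simp [Fin.sum_univ_four, Nat.ModEq]
    exact h3.mono (by norm_num) (by norm_num)
  refine Loc.of_prime_pow (Loc.prime_pow hk (by omega) fun e => ?_) hq
  -- `gcd k (2 ^ e) ≤ k / 3` or `1`
  obtain ⟨c, hc⟩ := Nat.gcd_dvd_left k (2 ^ e)
  obtain ⟨j, -, hj⟩ := (Nat.dvd_prime_pow Nat.prime_two).1 (Nat.gcd_dvd_right k (2 ^ e))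
  have hg : 0 < Nat.gcd k (2 ^ e) := Nat.gcd_pos_of_pos_left _ hk
  have hc0 : c ≠ 0 := by
    rintro rfl
    rw [mul_zero] at hc
    omega
  have hc1 : c ≠ 1 := by
    rintro rfl
    rw [mul_one, hj] at hc
    have hj2 : ¬ 2 ≤ j := fun h => hk2 j h hc
    have : j = 0 ∨ j = 1 := by omega
    rcases this with rfl | rfl
    · exact h1 (by simpa using hc)
    · exact h2 (by simpa using hc)
  have hc2 : c ≠ 2 := by
    rintro rfl
    rw [hj, ← pow_succ] at hc
    have hj2 : ¬ 2 ≤ j + 1 := fun h => hk2 (j + 1) h hc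
    have : j = 0 := by omega
    subst this
    exact h2 (by simpa using hc)
  have h3 : Nat.gcd k (2 ^ e) * 3 ≤ k := by
    calc Nat.gcd k (2 ^ e) * 3 ≤ Nat.gcd k (2 ^ e) * c := Nat.mul_le_mul_left _ (by omega)
      _ = k := hc.symm
  omega

end Pool.Agent.R500.WB
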