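import Mathlib

set_option autoImplicit false

/-!
# The local obstruction for the exponents `2 ^ m`
-/

namespace Pool.Agent.R500.WB

open Finset

lemma odd_pow_two {x : ℤ} (hx : Odd x) {m : ℕ} (hm : 1 ≤ m) :
    (2 : ℤ) ^ (m + 2) ∣ x ^ 2 ^ m - 1 := by
  induction m, hm using Nat.le_induction with
  | base =>
    obtain ⟨c, rfl⟩ := hx
    obtain ⟨d, hd⟩ := Int.even_mul_succ_self c
    refine ⟨d, ?_⟩
    have : (2 * c + 1) ^ 2 ^ 1 - 1 = 4 * (c * (c + 1)) := by ring
    rw [this, hd]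
    ring
  | succ m hm ih =>
    have h1 : x ^ 2 ^ (m + 1) - 1 = (x ^ 2 ^ m - 1) * (x ^ 2 ^ m + 1) := by
      rw [pow_succ 2 m, pow_mul]
      ring
    have h2 : (2 : ℤ) ∣ x ^ 2 ^ m + 1 := by
      have : Even (x ^ 2 ^ m + 1) := (hx.pow).add_odd odd_one
      exact this.two_dvd
    rw [h1]
    have h3 : (2 : ℤ) ^ (m + 1 + 2) = 2 ^ (m + 2) * 2 := by ring
    rw [h3]
    exact mul_dvd_mul ih h2

/-- `m + 3 ≤ 2 ^ m` -/
lemma add_three_le {m : ℕ} (hm : 3 ≤ m) : m + 3 ≤ 2 ^ m := by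
  induction m, hm using Nat.le_induction with
  | base => norm_num
  | succ m _ ih => rw [pow_succ]; omega

/-- **The local obstruction.** -/
theorem obstruction {m k q : ℕ} (hm : 3 ≤ m) (hk : k = 2 ^ m) (hq : 8 * k ∣ q) {b : ℕ → ℕ}
    (hb : ∀ x : ℕ, ∃ j : ℕ, b x = x ^ k + q * j) {n : ℕ} (hn : n % (8 * k) = 4 * k) {t : ℕ}
    (ht : t < 4 * k) (x : Fin t → ℕ) : ∑ i, b (x i) ≠ n := by
  intro hcon
  have hk0 : 0 < k := by rw [hk]; positivity
  have h4q : 4 * k ∣ q := (Dvd.intro 2 (by ring)).trans hq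
  have hodd : ∀ y : ℕ, b y ≡ (if y % 2 = 1 then 1 else 0) [MOD 4 * k] := by
    intro y
    obtain ⟨j, hj⟩ := hb y
    have h1 : b y ≡ y ^ k [MOD 4 * k] := by
      rw [hj]
      have h2 : q * j ≡ 0 [MOD 4 * k] := (Nat.modEq_zero_iff_dvd).2 (h4q.mul_right j)
      have := (Nat.ModEq.refl (y ^ k)).add h2
      simpa using this
    refine h1.trans ?_
    by_cases hy : y % 2 = 1
    · rw [if_pos hy]
      have h2 : ((4 * k : ℕ) : ℤ) ∣ ((y : ℕ) : ℤ) ^ k - 1 := by
        have h3 : Odd ((y : ℕ) : ℤ) := by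
          rw [Int.odd_coe_nat]
          exact Nat.odd_iff.2 hy
        have h4 := odd_pow_two h3 (show 1 ≤ m by omega)
        have h5 : ((4 * k : ℕ) : ℤ) = 2 ^ (m + 2) := by
          rw [hk]; push_cast; ring
        rw [h5]
        rw [← hk] at h4
        exact h4
      have h3 : (1 : ℕ) ≡ y ^ k [MOD 4 * k] := by
        rw [Nat.modEq_iff_dvd]
        push_cast
        push_cast at h2
        exact h2
      exact h3.symm
    · rw [if_neg hy]
      have hy2 : 2 ∣ y := by omega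
      have h2 : 4 * k ∣ y ^ k := by
        have h3 : 2 ^ k ∣ y ^ k := pow_dvd_pow_of_dvd hy2 k
        have h4 : 4 * k ∣ 2 ^ k := by
          have h5 : 4 * k = 2 ^ (m + 2) := by rw [hk]; ring
          rw [h5]
          refine pow_dvd_pow 2 ?_
          have := add_three_le hm
          rw [← hk] at this
          omega
        exact h4.trans h3
      exact (Nat.modEq_zero_iff_dvd).2 h2
  have heven : ∀ y : ℕ, y % 2 ≠ 1 → b y ≡ 0 [MOD 8 * k] := by
    intro y hy
    obtain ⟨j, hj⟩ := hb y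
    have hy2 : 2 ∣ y := by omega
    have h2 : 8 * k ∣ y ^ k := by
      have h3 : 2 ^ k ∣ y ^ k := pow_dvd_pow_of_dvd hy2 k
      have h4 : 8 * k ∣ 2 ^ k := by
        have h5 : 8 * k = 2 ^ (m + 3) := by rw [hk]; ring
        rw [h5]
        refine pow_dvd_pow 2 ?_
        have := add_three_le hm
        rw [← hk] at this
        exact this
      exact h4.trans h3
    rw [hj]
    exact (Nat.modEq_zero_iff_dvd).2 (dvd_add h2 (hq.mul_right j))
  have hsum : ∑ i, b (x i) ≡ ∑ i, (if x i % 2 = 1 then 1 else 0) [MOD 4 * k] :=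
    Nat.ModEq.sum fun i _ => hodd (x i)
  rw [hcon, ← Finset.card_filter] at hsum
  have hn0 : n ≡ 0 [MOD 4 * k] := by
    have h1 : n = 8 * k * (n / (8 * k)) + 4 * k := by
      conv_lhs => rw [← Nat.div_add_mod n (8 * k), hn]
    rw [Nat.modEq_zero_iff_dvd, h1]
    refine dvd_add ?_ (dvd_refl _)
    exact Dvd.intro (2 * (n / (8 * k))) (by ring)
  have hdvd : 4 * k ∣ (univ.filter fun i : Fin t => x i % 2 = 1).card :=
    (Nat.modEq_zero_iff_dvd).1 (hsum.symm.trans hn0)
  have hcard : (univ.filter fun i : Fin t => x i % 2 = 1).card ≤ t := by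
    have := Finset.card_filter_le (univ : Finset (Fin t)) (fun i => x i % 2 = 1)
    rwa [Finset.card_univ, Fintype.card_fin] at this
  have hzero : (univ.filter fun i : Fin t => x i % 2 = 1).card = 0 :=
    Nat.eq_zero_of_dvd_of_lt hdvd (by omega)
  rw [Finset.card_eq_zero, Finset.filter_eq_empty_iff] at hzero
  have hsum0 : ∑ i, b (x i) ≡ ∑ _i : Fin t, 0 [MOD 8 * k] :=
    Nat.ModEq.sum fun i _ => heven (x i) (hzero (Finset.mem_univ i))
  rw [hcon, Finset.sum_const_zero] at hsum0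
  unfold Nat.ModEq at hsum0
  rw [hn, Nat.zero_mod] at hsum0
  omega

end Pool.Agent.R500.WB
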