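import Mathlib
import Pool.Agent.R500.WA.Block

set_option autoImplicit false

/-!
# The second moment bound for one residue class, with the noise in the multiples of `q`
-/

namespace Pool.Agent.R500.WB

open Finset Function
open Pool.Agent.R500.WA
open scoped Classical

/-- The greedy algorithm with prescribed residues modulo `q`. -/
lemma greedyR {k : ℕ} (hk : 1 ≤ k) {q B b : ℕ} (hq : 1 ≤ q) (hb : b < B) :
    ∀ (rs : List ℕ) (_ : ∀ c ∈ rs, c < q) (r : ℕ), ∃ (ys : List ℕ) (R : ℕ),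
      ys.length = rs.length ∧
      (∀ y ∈ ys, 1 ≤ y ∧ y / q % B = b ∧ y ^ k ≤ r + (2 * (q * B)) ^ k) ∧
      (ys.map (fun y => y ^ k)).sum ≡ (rs.map (fun y => y ^ k)).sum [MOD q] ∧
      (ys.map (fun y => y ^ k)).sum + R = r + rs.length * (2 * (q * B)) ^ k ∧
      (R : ℝ) ≤ (2 * rs.length + 1) * (2 * ((q * B : ℕ) : ℝ)) ^ k +
        A k (q * B) ^ rs.length * (r : ℝ) ^ (θ k ^ rs.length) := by
  have hB : 1 ≤ B := by omega
  have hC1 : 1 ≤ q * B := Nat.mul_pos hq hB
  generalize hC : q * B = C at *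
  have hA := one_le_A hk hC1
  have hCR : (0 : ℝ) ≤ (2 * (C : ℝ)) ^ k := by positivity
  have hqb : ∀ c < q, q * b + c < C := by
    intro c hc
    have : q * (b + 1) ≤ q * B := Nat.mul_le_mul_left q hb
    rw [hC] at this
    nlinarith
  have hdiv : ∀ y c, c < q → y % C = q * b + c → y / q % B = b ∧ y ≡ c [MOD q] := by
    intro y c hc hy
    have h1 : y = q * (B * (y / C) + b) + c := by
      have := Nat.div_add_mod y C
      rw [hy] at this
      rw [← hC] at this ⊢
      rw [← this]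
      have h2 : (q * B * (y / (q * B)) + (q * b + c)) / (q * B) = y / (q * B) := by
        rw [this]
      rw [this, mul_add, ← mul_assoc, add_assoc]
      rw [hC] at this ⊢
      exact this.symm
    constructor
    · have h2 : y / q = B * (y / C) + b := by
        conv_lhs => rw [h1]
        rw [Nat.mul_add_div (by omega), Nat.div_eq_of_lt hc, add_zero]
      rw [h2, Nat.mul_add_mod, Nat.mod_eq_of_lt hb]
    · conv_lhs => rw [h1]
      unfold Nat.ModEq
      rw [Nat.mul_add_mod]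
  intro rs
  induction rs with
  | nil =>
    intro _ r
    refine ⟨[], r, by simp, by simp, by simp [Nat.ModEq], by simp, ?_⟩
    simp only [List.length_nil, pow_zero, one_mul, Real.rpow_one, Nat.cast_zero, mul_zero, zero_add]
    linarith
  | cons c rs ih =>
    intro hrs r
    have hc : c < q := hrs c (by simp)
    have hrs' : ∀ c ∈ rs, c < q := fun d hd => hrs d (List.mem_cons_of_mem _ hd)
    obtain ⟨J, hJ⟩ : ∃ J, J = rs.length := ⟨_, rfl⟩
    rw [← hJ] at ih
    have hθ0 : 0 ≤ θ k ^ J := pow_nonneg (θ_nonneg hk) _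
    have hθ1 : θ k ^ J ≤ 1 := pow_le_one₀ (θ_nonneg hk) (θ_lt hk).le
    rw [List.length_cons, ← hJ]
    by_cases hr : (2 * C) ^ k ≤ r
    · obtain ⟨y, hy1, hy2, hy3, hy4⟩ := greedy_step hk (hqb c hc) hr
      have hsb := step_bound hk hy1 hy3 hy4
      obtain ⟨hyb, hyc⟩ := hdiv y c hc hy2
      obtain ⟨ys, R, h1, h2, h3, h4, h5⟩ := ih hrs' (r - y ^ k)
      refine ⟨y :: ys, R + (2 * C) ^ k, by simpa using h1, ?_, ?_, ?_, ?_⟩
      · intro z hz
        rcases List.mem_cons.1 hz with rfl | hz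
        · exact ⟨hC1.trans hy1, hyb, hy3.trans (Nat.le_add_right _ _)⟩
        · obtain ⟨a1, a2, a3⟩ := h2 z hz
          exact ⟨a1, a2, a3.trans (Nat.add_le_add_right (Nat.sub_le _ _) _)⟩
      · rw [List.map_cons, List.sum_cons, List.map_cons, List.sum_cons]
        exact (hyc.pow k).add h3
      · rw [List.map_cons, List.sum_cons, add_mul, one_mul]
        omega
      · have e1 : ((r - y ^ k : ℕ) : ℝ) ^ (θ k ^ J) ≤ A k C * (r : ℝ) ^ (θ k ^ (J + 1)) := by
          calc ((r - y ^ k : ℕ) : ℝ) ^ (θ k ^ J) ≤ (A k C * (r : ℝ) ^ θ k) ^ (θ k ^ J) :=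
                Real.rpow_le_rpow (Nat.cast_nonneg _) hsb hθ0
            _ = A k C ^ (θ k ^ J) * ((r : ℝ) ^ θ k) ^ (θ k ^ J) :=
                Real.mul_rpow (by linarith) (by positivity)
            _ = A k C ^ (θ k ^ J) * (r : ℝ) ^ (θ k ^ (J + 1)) := by
                rw [← Real.rpow_mul (Nat.cast_nonneg _), pow_succ']
            _ ≤ A k C * (r : ℝ) ^ (θ k ^ (J + 1)) := by
                refine mul_le_mul_of_nonneg_right ?_ (by positivity)
                calc A k C ^ (θ k ^ J) ≤ A k C ^ (1 : ℝ) :=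
                      Real.rpow_le_rpow_of_exponent_le hA hθ1
                  _ = _ := Real.rpow_one _
        have e2 : (0 : ℝ) ≤ A k C ^ J := by positivity
        have e3 := mul_le_mul_of_nonneg_left e1 e2
        have e4 : A k C ^ J * (A k C * (r : ℝ) ^ (θ k ^ (J + 1))) =
            A k C ^ (J + 1) * (r : ℝ) ^ (θ k ^ (J + 1)) := by
          rw [pow_succ (A k C) J, mul_assoc]
        rw [e4] at e3
        push_cast
        linarith only [e3, h5, hCR]
    · push Not at hr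
      obtain ⟨ys, R, h1, h2, h3, h4, h5⟩ := ih hrs' 0
      obtain ⟨y, hy⟩ : ∃ y, y = C + (q * b + c) := ⟨_, rfl⟩
      have hyC : y % C = q * b + c := by
        rw [hy, Nat.add_mod_left, Nat.mod_eq_of_lt (hqb c hc)]
      obtain ⟨hyb, hyc⟩ := hdiv y c hc hyC
      have hyk : y ^ k ≤ (2 * C) ^ k := by
        refine Nat.pow_le_pow_left ?_ k
        have := hqb c hc
        omega
      refine ⟨y :: ys, R + r + ((2 * C) ^ k - y ^ k), by simpa using h1, ?_, ?_, ?_, ?_⟩
      · intro z hz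
        rcases List.mem_cons.1 hz with rfl | hz
        · exact ⟨by omega, hyb, hyk.trans (Nat.le_add_left _ _)⟩
        · obtain ⟨a1, a2, a3⟩ := h2 z hz
          exact ⟨a1, a2, by omega⟩
      · rw [List.map_cons, List.sum_cons, List.map_cons, List.sum_cons]
        exact (hyc.pow k).add h3
      · rw [List.map_cons, List.sum_cons, add_mul, one_mul]
        omega
      · have e1 : (r : ℝ) ≤ (2 * (C : ℝ)) ^ k := by exact_mod_cast hr.le
        have e2 : (((2 * C) ^ k - y ^ k : ℕ) : ℝ) ≤ (2 * (C : ℝ)) ^ k := by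
          have := Nat.sub_le ((2 * C) ^ k) (y ^ k)
          exact_mod_cast this
        have e3 : A k C ^ J * ((0 : ℕ) : ℝ) ^ (θ k ^ J) ≤
            A k C ^ (J + 1) * (r : ℝ) ^ (θ k ^ (J + 1)) := by
          by_cases hz : θ k ^ J = 0
          · have hz' : θ k ^ (J + 1) = 0 := by rw [pow_succ, hz, zero_mul]
            rw [hz, hz', Real.rpow_zero, Real.rpow_zero, mul_one, mul_one]
            exact pow_le_pow_right₀ hA (Nat.le_succ _)
          · rw [Nat.cast_zero, Real.zero_rpow hz, mul_zero]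
            positivity
        push_cast
        push_cast at h5 e3 e2
        linarith only [e1, e2, e3, h5]

section
variable {D : Finset ℕ}

/-- The sum of the moved powers of a list. -/
noncomputable def ffq (q k : ℕ) (l : List ℕ) (v : ↥D → ℕ) : ℕ :=
  (l.map (fun y => y ^ k + q * vv v y)).sum

lemma ffq_eq (q k : ℕ) (l : List ℕ) (v : ↥D → ℕ) :
    ffq q k l v = (l.map (fun y => y ^ k)).sum + q * (l.map (fun y => vv v y)).sum := by
  unfold ffq
  induction l with
  | nil => simp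
  | cons y l ih => simp only [List.map_cons, List.sum_cons]; rw [ih]; ring

lemma ffq_upd (q k : ℕ) (l : List ℕ) (v : ↥D → ℕ) {w : ℕ} (hw : w ∈ D) (j : ℕ) :
    ffq q k l (update v ⟨w, hw⟩ j) + q * (l.count w * v ⟨w, hw⟩) =
      ffq q k l v + q * (l.count w * j) := by
  have h1 := ff_upd k l v hw j
  rw [ff_eq, ff_eq] at h1
  rw [ffq_eq, ffq_eq]
  have h2 : (l.map (fun y => vv (update v ⟨w, hw⟩ j) y)).sum + l.count w * v ⟨w, hw⟩ =
      (l.map (fun y => vv v y)).sum + l.count w * j := by omega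
  have h3 := congrArg (fun z => q * z) h2
  simp only [mul_add] at h3
  omega

end

lemma zf_inj' {C c c' M m i t i' t' : ℕ} (hc : c < C) (hc' : c' < C) (ht : t < m) (ht' : t' < m)
    (h : zf C c M m i t = zf C c' M m i' t') : i = i' ∧ t = t' := by
  have hC : 0 < C := by omega
  unfold zf at h
  have e1 : (C * (M + i * m + t) + c) / C = M + i * m + t := by
    rw [Nat.mul_add_div hC, Nat.div_eq_of_lt hc, add_zero]
  have e2 : (C * (M + i' * m + t') + c') / C = M + i' * m + t' := by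
    rw [Nat.mul_add_div hC, Nat.div_eq_of_lt hc', add_zero]
  have h1 : M + i * m + t = M + i' * m + t' := by rw [← e1, ← e2, h]
  have h2 : i * m + t = i' * m + t' := by omega
  have hm : 0 < m := by omega
  have h3 : (i * m + t) / m = i := by
    rw [mul_comm, Nat.mul_add_div hm, Nat.div_eq_of_lt ht, add_zero]
  have h4 : (i' * m + t') / m = i' := by
    rw [mul_comm, Nat.mul_add_div hm, Nat.div_eq_of_lt ht', add_zero]
  have h5 : i = i' := by rw [← h3, ← h4, h2]
  subst h5
  exact ⟨rfl, by omega⟩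

/-- the numerical assumptions -/
structure ParQ (q k F J B C n M m L Y : ℕ) (h : ℕ → ℕ) : Prop where
  hk : 1 ≤ k
  hq : 1 ≤ q
  hB : 1 ≤ B
  hC : C = q * B
  hM : 1 ≤ M
  hmM : F * m ≤ M
  hmono : Monotone h
  hY : 2 * C * M ≤ Y
  hn : F * (2 * C * M) ^ k + q * L + J * (2 * C) ^ k + (Y + C) ^ k ≤ n
  hsmall : A k C * (n : ℝ) ^ θ k + (2 * C) ^ k < (C * M) ^ k
  hL : (F + J) * h (2 * C * M) ≤ L
  hR : (L : ℝ) + (2 * J + 1) * (2 * C) ^ k + A k C ^ J * (A k C * (n : ℝ) ^ θ k) ^ (θ k ^ J) < h Y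

variable {q k F J B C n M m L Y : ℕ} {h : ℕ → ℕ}

lemma ParQ.hC1 (hp : ParQ q k F J B C n M m L Y h) : 1 ≤ C := by
  rw [hp.hC]; exact Nat.mul_pos hp.hq hp.hB

lemma ParQ.lt (hp : ParQ q k F J B C n M m L Y h) {b c : ℕ} (hb : b < B) (hc : c < q) :
    q * b + c < C := by
  have h1 : q * (b + 1) ≤ q * B := Nat.mul_le_mul_left q hb
  rw [hp.hC]
  nlinarith

lemma ParQ.cls (hp : ParQ q k F J B C n M m L Y h) {b c y : ℕ} (hb : b < B) (hc : c < q)
    (hy : y % C = q * b + c) : y / q % B = b ∧ y ≡ c [MOD q] := by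
  have hq := hp.hq
  have h1 : y = q * (B * (y / C) + b) + c := by
    have := Nat.div_add_mod y C
    rw [hy] at this
    calc y = C * (y / C) + (q * b + c) := this.symm
      _ = q * B * (y / C) + (q * b + c) := by rw [← hp.hC]
      _ = _ := by ring
  constructor
  · have h2 : y / q = B * (y / C) + b := by
      conv_lhs => rw [h1]
      rw [Nat.mul_add_div (by omega), Nat.div_eq_of_lt hc, add_zero]
    rw [h2, Nat.mul_add_mod, Nat.mod_eq_of_lt hb]
  · conv_lhs => rw [h1]
    unfold Nat.ModEq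
    rw [Nat.mul_add_mod]

lemma ParQ.zf_lt (hp : ParQ q k F J B C n M m L Y h) {d i t : ℕ} (hd : d < C) (hi : i < F)
    (ht : t < m) : zf C d M m i t < 2 * C * M := by
  unfold zf
  have h1 : M + i * m + t + 1 ≤ 2 * M := by
    have : (i + 1) * m ≤ F * m := Nat.mul_le_mul_right m hi
    have := hp.hmM
    nlinarith
  have h2 : C * (M + i * m + t + 1) ≤ C * (2 * M) := Nat.mul_le_mul_left C h1
  nlinarith

lemma ParQ.tuple (hp : ParQ q k F J B C n M m L Y h) {b : ℕ} (hb : b < B) {r₀ : ℕ}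
    (hr₀ : r₀ < q) {s : Fin F → ℕ} (hs : ∀ i, s i < q) {ts : List ℕ} (hts : ∀ c ∈ ts, c < q)
    (htsJ : ts.length = J)
    (hsum : r₀ ^ k + ∑ i, s i ^ k + (ts.map (fun y => y ^ k)).sum ≡ n [MOD q])
    (x : Fin F → Fin m) :
    ∃ (x₀ : ℕ) (ys : List ℕ) (R : ℕ), ys.length = J ∧ Y < x₀ ∧ x₀ ^ k ≤ n ∧ x₀ / q % B = b ∧
      (∀ y ∈ ys, 1 ≤ y ∧ y / q % B = b ∧ y < C * M) ∧
      x₀ ^ k + ∑ i : Fin F, (zf C (q * b + s i) M m i (x i)) ^ k + (ys.map (fun y => y ^ k)).sum +
        q * (L + R) = n ∧ L + R < h Y := by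
  have hk := hp.hk
  have hC1 := hp.hC1
  have hlt : ∀ i, q * b + s i < C := fun i => hp.lt hb (hs i)
  have hZ : ∑ i : Fin F, (zf C (q * b + s i) M m i (x i)) ^ k ≤ F * (2 * C * M) ^ k := by
    have := Finset.sum_le_card_nsmul (univ : Finset (Fin F))
      (fun i => (zf C (q * b + s i) M m i (x i)) ^ k) ((2 * C * M) ^ k)
      (fun i _ => Nat.pow_le_pow_left (hp.zf_lt (hlt i) i.2 (x i).2).le k)
    simpa using this
  have hZmod : ∑ i : Fin F, (zf C (q * b + s i) M m i (x i)) ^ k ≡ ∑ i, s i ^ k [MOD q] := by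
    refine Nat.ModEq.sum fun i _ => Nat.ModEq.pow k ?_
    refine (hp.cls hb (hs i) ?_).2
    unfold zf
    rw [Nat.mul_add_mod, Nat.mod_eq_of_lt (hlt i)]
  obtain ⟨Z, hZdef⟩ : ∃ Z, Z = ∑ i : Fin F, (zf C (q * b + s i) M m i (x i)) ^ k := ⟨_, rfl⟩
  rw [← hZdef] at hZ hZmod ⊢
  have hn := hp.hn
  obtain ⟨r₁, hr₁⟩ : ∃ r₁, Z + q * L + J * (2 * C) ^ k + r₁ = n :=
    ⟨n - (Z + q * L + J * (2 * C) ^ k), by omega⟩
  have hr₁Y : (Y + C) ^ k ≤ r₁ := by omega
  have hYC : C ≤ Y := by
    have := hp.hY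
    have := hp.hM
    nlinarith
  obtain ⟨x₀, h1, h2, h3, h4⟩ := greedy_step (r := r₁) hk (hp.lt hb hr₀)
    (le_trans (Nat.pow_le_pow_left (by omega) k) hr₁Y)
  obtain ⟨h2a, h2b⟩ := hp.cls hb hr₀ h2
  have hYx : Y < x₀ := by
    have : Y + C < x₀ + C := lt_of_pow_lt_pow_left₀ k (Nat.zero_le _) (hr₁Y.trans_lt h4)
    omega
  have hsb := step_bound hk h1 h3 h4
  have hA := one_le_A hk hC1
  have hr₂ : ((r₁ - x₀ ^ k : ℕ) : ℝ) ≤ A k C * (n : ℝ) ^ θ k := by
    refine hsb.trans (mul_le_mul_of_nonneg_left ?_ (by linarith))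
    refine Real.rpow_le_rpow (Nat.cast_nonneg _) ?_ (θ_nonneg hk)
    have : r₁ ≤ n := by omega
    exact_mod_cast this
  obtain ⟨ys, R, g1, g2, g3, g4, g5⟩ := greedyR hk hp.hq hb ts hts (r₁ - x₀ ^ k)
  rw [← hp.hC, htsJ] at g4 g5
  rw [← hp.hC] at g2
  have htot : x₀ ^ k + Z + (ys.map (fun y => y ^ k)).sum + (q * L + R) = n := by omega
  have hqR : q ∣ R := by
    have e1 : x₀ ^ k + Z + (ys.map (fun y => y ^ k)).sum ≡
        r₀ ^ k + ∑ i, s i ^ k + (ts.map (fun y => y ^ k)).sum [MOD q] :=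
      ((h2b.pow k).add hZmod).add g3
    have e2 : x₀ ^ k + Z + (ys.map (fun y => y ^ k)).sum + (q * L + R) ≡
        x₀ ^ k + Z + (ys.map (fun y => y ^ k)).sum + 0 [MOD q] := by
      rw [htot, add_zero]
      exact (e1.trans hsum).symm
    have e3 : q * L + R ≡ 0 [MOD q] := Nat.ModEq.add_left_cancel' _ e2
    rw [Nat.modEq_zero_iff_dvd] at e3
    exact (Nat.dvd_add_right (dvd_mul_right q L)).1 e3
  obtain ⟨R', hR'⟩ := hqR
  have hR'R : R' ≤ R := by
    rw [hR']
    exact Nat.le_mul_of_pos_left _ hp.hq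
  refine ⟨x₀, ys, R', by rw [g1, htsJ], hYx, by omega, h2a, ?_, ?_, ?_⟩
  · intro y hy
    obtain ⟨a1, a2, a3⟩ := g2 y hy
    refine ⟨a1, a2, ?_⟩
    have h5 : (y : ℝ) ^ k ≤ ((r₁ - x₀ ^ k : ℕ) : ℝ) + (2 * C) ^ k := by exact_mod_cast a3
    have h6 : (y : ℝ) ^ k < (C * M) ^ k := by
      have := hp.hsmall
      linarith
    have h7 : (y : ℝ) < C * M := lt_of_pow_lt_pow_left₀ k (by positivity) h6
    exact_mod_cast h7
  · rw [mul_add, ← hR']
    exact htot
  · have h5 : ((r₁ - x₀ ^ k : ℕ) : ℝ) ^ (θ k ^ J) ≤ (A k C * (n : ℝ) ^ θ k) ^ (θ k ^ J) :=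
      Real.rpow_le_rpow (Nat.cast_nonneg _) hr₂ (pow_nonneg (θ_nonneg hk) _)
    have h6 : (0 : ℝ) ≤ A k C ^ J := by positivity
    have h7 := mul_le_mul_of_nonneg_left h5 h6
    have h8 := hp.hR
    have h9 : ((L + R' : ℕ) : ℝ) < h Y := by
      have h10 : (R' : ℝ) ≤ R := by exact_mod_cast hR'R
      push_cast
      linarith only [h7, h8, h10, g5]
    exact_mod_cast h9

/-- The indices of a block. -/
def DQ (n q B b : ℕ) : Finset ℕ := (range (n + 1)).filter (fun x => x / q % B = b)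

lemma mem_DQ {n q B b x : ℕ} : x ∈ DQ n q B b ↔ x ≤ n ∧ x / q % B = b := by
  simp [DQ]

/-- `n` is a sum of `t` moved powers from the block. -/
def SuccQ (q k t n B b : ℕ) (v : ↥(DQ n q B b) → ℕ) : Prop :=
  ∃ l : List ℕ, l.length = t ∧ (∀ y ∈ l, 1 ≤ y) ∧ (∀ y ∈ l, y ∈ DQ n q B b) ∧ ffq q k l v = n

theorem ParQ.block (hp : ParQ q k F J B C n M m L Y h) {b : ℕ} (hb : b < B) {N Hmax Hmin : ℕ}
    {δ : ℝ} {r₀ : ℕ}
    (hr₀ : r₀ < q) {s : Fin F → ℕ} (hs : ∀ i, s i < q) {ts : List ℕ} (hts : ∀ c ∈ ts, c < q)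
    (htsJ : ts.length = J)
    (hsum : r₀ ^ k + ∑ i, s i ^ k + (ts.map (fun y => y ^ k)).sum ≡ n [MOD q])
    (hN : N ≤ m ^ F) (hmax : ∀ x, x ^ k ≤ n → h x ≤ Hmax) (hmin : Hmin ≤ h (C * M))
    (hmin0 : 0 < Hmin) (hmax0 : 0 < Hmax) (hδ1 : δ ≤ 1)
    {ν : ↥(DQ n q B b) → ℕ → ℝ} (H : Law (fun i : ↥(DQ n q B b) => h i) ν δ) :
    N * (δ ^ (F + 1) / Hmax) - N * N * (δ / Hmin * (δ / Hmin)) ≤
      Ex (fun i : ↥(DQ n q B b) => h i) ν
        (fun v => if SuccQ q k (F + 1 + J) n B b v then 1 else 0) := by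
  have hk := hp.hk
  have hq := hp.hq
  have hC0 : 0 < C := hp.hC1
  choose x₀ ys R g1 g2 g3 g4 g5 g6 g7 using fun x : Fin F → Fin m =>
    hp.tuple hb hr₀ hs hts htsJ hsum x
  have hδ := H.δpos
  have hlt : ∀ i, q * b + s i < C := fun i => hp.lt hb (hs i)
  -- the tuple list
  set zl : (Fin F → Fin m) → List ℕ :=
    fun x => List.ofFn (fun i : Fin F => zf C (q * b + s i) M m i (x i)) with hzl
  set ll : (Fin F → Fin m) → List ℕ := fun x => x₀ x :: (zl x ++ ys x) with hll
  have hx₀n : ∀ x, x₀ x ≤ n := fun x => (Nat.le_self_pow (by omega) _).trans (g3 x)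
  have hx₀D : ∀ x, x₀ x ∈ DQ n q B b := fun x => mem_DQ.2 ⟨hx₀n x, g4 x⟩
  have hYn : ∀ x : Fin F → Fin m, 2 * C * M ≤ n := fun x =>
    (hp.hY.trans (g2 x).le).trans (hx₀n x)
  have hzD : ∀ (x : Fin F → Fin m) (i : Fin F),
      zf C (q * b + s i) M m i (x i) ∈ DQ n q B b := by
    intro x i
    refine mem_DQ.2 ⟨(hp.zf_lt (hlt i) i.2 (x i).2).le.trans (hYn x), ?_⟩
    refine (hp.cls hb (hs i) ?_).1
    unfold zf
    rw [Nat.mul_add_mod, Nat.mod_eq_of_lt (hlt i)]
  have hyD : ∀ x, ∀ y ∈ ys x, y ∈ DQ n q B b := by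
    intro x y hy
    obtain ⟨a1, a2, a3⟩ := g5 x y hy
    refine mem_DQ.2 ⟨?_, a2⟩
    have := hYn x
    nlinarith
  have hzx₀ : ∀ (x x' : Fin F → Fin m) (i : Fin F),
      zf C (q * b + s i) M m i (x i) ≠ x₀ x' := by
    intro x x' i hcon
    have h1 := hp.zf_lt (hlt i) i.2 (x i).2
    have h2 := g2 x'
    have h3 := hp.hY
    omega
  have hzy : ∀ (x x' : Fin F → Fin m) (i : Fin F),
      zf C (q * b + s i) M m i (x i) ∉ ys x' := by
    intro x x' i hcon
    have h1 := zf_ge C (q * b + s i) M m i (x i)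
    have h2 := (g5 x' _ hcon).2.2
    omega
  have hx₀y : ∀ (x : Fin F → Fin m), x₀ x ∉ ys x := by
    intro x hcon
    have h1 := (g5 x _ hcon).2.2
    have h2 := g2 x
    have h3 := hp.hY
    nlinarith
  have hx₀z : ∀ (x : Fin F → Fin m), x₀ x ∉ zl x := by
    intro x hcon
    rw [hzl, List.mem_ofFn] at hcon
    obtain ⟨i, hi⟩ := hcon
    exact hzx₀ x x i hi
  have hcx₀ : ∀ x, (ll x).count (x₀ x) = 1 := by
    intro x
    rw [hll]
    simp only
    rw [List.count_cons_self, List.count_append, List.count_eq_zero_of_not_mem (hx₀z x),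
      List.count_eq_zero_of_not_mem (hx₀y x)]
  have hcz : ∀ (x : Fin F → Fin m) (i : Fin F),
      (ll x).count (zf C (q * b + s i) M m i (x i)) = 1 := by
    intro x i
    rw [hll]
    simp only
    rw [List.count_cons_of_ne (Ne.symm (hzx₀ x x i)), List.count_append,
      List.count_eq_zero_of_not_mem (hzy x x i), add_zero]
    refine List.count_eq_one_of_mem ?_ ?_
    · rw [hzl, List.nodup_ofFn]
      intro i j hij
      have := (zf_inj' (hlt i) (hlt j) (x i).2 (x j).2 hij).1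
      exact Fin.ext this
    · rw [hzl, List.mem_ofFn]
      exact ⟨i, rfl⟩
  have hcz' : ∀ (x x' : Fin F → Fin m) (i : Fin F), x i ≠ x' i →
      (ll x').count (zf C (q * b + s i) M m i (x i)) = 0 := by
    intro x x' i hne
    rw [hll]
    simp only
    rw [List.count_cons_of_ne (Ne.symm (hzx₀ x x' i)), List.count_append,
      List.count_eq_zero_of_not_mem (hzy x x' i), add_zero]
    refine List.count_eq_zero_of_not_mem ?_
    rw [hzl, List.mem_ofFn]
    rintro ⟨j, hj⟩
    obtain ⟨e1, e2⟩ := zf_inj' (hlt j) (hlt i) (x' j).2 (x i).2 hj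
    have e3 : j = i := Fin.ext e1
    subst e3
    exact hne (Fin.ext e2.symm)
  -- the events
  set P : (Fin F → Fin m) → (↥(DQ n q B b) → ℕ) → Prop := fun x v => ffq q k (ll x) v = n with hP
  set S : (Fin F → Fin m) → Finset ↥(DQ n q B b) := fun x =>
    insert ⟨x₀ x, hx₀D x⟩ (univ.image (fun i : Fin F =>
      (⟨zf C (q * b + s i) M m i (x i), hzD x i⟩ : ↥(DQ n q B b)))) with hS
  obtain ⟨I, hI, hIc⟩ := Finset.exists_subset_card_eq (s := (univ : Finset (Fin F → Fin m)))
    (n := N) (by simpa using hN)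
  have hSucc : ∀ x ∈ I, ∀ v, P x v → SuccQ q k (F + 1 + J) n B b v := by
    intro x _ v hv
    refine ⟨ll x, ?_, ?_, ?_, hv⟩
    · rw [hll, hzl]
      simp only [List.length_cons, List.length_append, List.length_ofFn, g1 x]
      ring
    · intro y hy
      rcases List.mem_cons.1 hy with rfl | hy
      · have := g2 x
        omega
      · rcases List.mem_append.1 hy with hy | hy
        · rw [hzl, List.mem_ofFn] at hy
          obtain ⟨i, rfl⟩ := hy
          have := zf_ge C (q * b + s i) M m i (x i)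
          have := hp.hM
          nlinarith
        · exact (g5 x y hy).1
    · intro y hy
      rcases List.mem_cons.1 hy with rfl | hy
      · exact hx₀D x
      · rcases List.mem_append.1 hy with hy | hy
        · rw [hzl, List.mem_ofFn] at hy
          obtain ⟨i, rfl⟩ := hy
          exact hzD x i
        · exact hyD x y hy
  have hmain := H.union I S P (SuccQ q k (F + 1 + J) n B b) hSucc
    (α := δ ^ (F + 1) / Hmax) (β := δ / Hmin * (δ / Hmin)) ?_ ?_ (by positivity)
  · rw [hIc] at hmain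
    exact hmain
  · -- lower bound
    intro x _
    have hlow := H.lower (S x) (P x) (w := ⟨x₀ x, hx₀D x⟩) (Finset.mem_insert_self _ _) ?_
    · refine le_trans ?_ hlow
      have hcard : #(S x) ≤ F + 1 := by
        rw [hS]
        refine (Finset.card_insert_le _ _).trans ?_
        have := Finset.card_image_le (s := (univ : Finset (Fin F)))
          (f := fun i : Fin F => (⟨zf C (q * b + s i) M m i (x i), hzD x i⟩ :
            ↥(DQ n q B b)))
        rw [Finset.card_univ, Fintype.card_fin] at this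
        omega
      have e1 : δ ^ (F + 1) ≤ δ ^ #(S x) := pow_le_pow_of_le_one hδ.le hδ1 hcard
      have e2 : (h (x₀ x) : ℝ) ≤ Hmax := by exact_mod_cast hmax _ (g3 x)
      have e3 : (0 : ℝ) < h (x₀ x) := by exact_mod_cast H.pos ⟨x₀ x, hx₀D x⟩
      exact div_le_div₀ (by positivity) e1 e3 e2
    · intro v hv
      rw [mem_Box] at hv
      have hnoise : ((zl x ++ ys x).map (fun y => vv v y)).sum ≤ L := by
        have e1 : ∀ y ∈ (zl x ++ ys x).map (fun y => vv v y), y ≤ h (2 * C * M) := by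
          intro y hy
          rw [List.mem_map] at hy
          obtain ⟨w, hw, rfl⟩ := hy
          have hwle : w ≤ 2 * C * M ∧ w ∈ DQ n q B b := by
            rcases List.mem_append.1 hw with hw | hw
            · rw [hzl, List.mem_ofFn] at hw
              obtain ⟨i, rfl⟩ := hw
              exact ⟨(hp.zf_lt (hlt i) i.2 (x i).2).le, hzD x i⟩
            · refine ⟨?_, hyD x w hw⟩
              have := (g5 x w hw).2.2
              nlinarith
          unfold vv
          rw [dif_pos hwle.2]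
          exact (hv ⟨w, hwle.2⟩).le.trans (hp.hmono hwle.1)
        have e2 := List.sum_le_card_nsmul _ _ e1
        rw [List.length_map, List.length_append, g1 x, smul_eq_mul] at e2
        have e3 : (zl x).length = F := by rw [hzl]; simp
        rw [e3] at e2
        exact e2.trans hp.hL
      have hzsum : ((zl x).map (fun y => y ^ k)).sum =
          ∑ i : Fin F, (zf C (q * b + s i) M m i (x i)) ^ k := by
        rw [hzl]
        simp only
        rw [List.map_ofFn, List.sum_ofFn]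
        rfl
      have hfv : ffq q k (ll x) v = (x₀ x) ^ k + q * vv v (x₀ x) + ((∑ i : Fin F,
          (zf C (q * b + s i) M m i (x i)) ^ k) + ((ys x).map (fun y => y ^ k)).sum +
          q * ((zl x ++ ys x).map (fun y => vv v y)).sum) := by
        have : ffq q k (ll x) v = (x₀ x) ^ k + q * vv v (x₀ x) + ffq q k (zl x ++ ys x) v := by
          rw [hll]; simp [ffq]
        rw [this, ffq_eq, List.map_append, List.sum_append, hzsum]
      have hvx : vv v (x₀ x) = v ⟨x₀ x, hx₀D x⟩ := by unfold vv; rw [dif_pos (hx₀D x)]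
      obtain ⟨Q, hQ⟩ : ∃ Q, Q = ((zl x ++ ys x).map (fun y => vv v y)).sum := ⟨_, rfl⟩
      rw [← hQ] at hnoise hfv
      refine ⟨L + R x - Q, ?_, ?_⟩
      · have h1 := g7 x
        have h2 := hp.hmono (g2 x).le
        simp only
        omega
      · have hup := ffq_upd q k (ll x) v (hx₀D x) (L + R x - Q)
        rw [hcx₀ x, one_mul, one_mul, hfv, hvx] at hup
        have h6 := g6 x
        have h7 : q * (L + R x - Q) + q * Q = q * (L + R x) := by
          rw [← mul_add, Nat.sub_add_cancel (by omega)]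
        rw [hP]
        simp only
        omega
  · -- upper bound
    intro x _ x' _ hne
    obtain ⟨i, hi⟩ := Function.ne_iff.1 hne
    have hzz : (⟨zf C (q * b + s i) M m i (x i), hzD x i⟩ : ↥(DQ n q B b)) ≠
        ⟨zf C (q * b + s i) M m i (x' i), hzD x' i⟩ := by
      intro hcon
      have := (zf_inj' (hlt i) (hlt i) (x i).2 (x' i).2 (congrArg Subtype.val hcon)).2
      exact hi (Fin.ext this)
    have q1 : ∀ (v : ↥(DQ n q B b) → ℕ) (j : ℕ),
        ffq q k (ll x') (update v ⟨zf C (q * b + s i) M m i (x i), hzD x i⟩ j) =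
          ffq q k (ll x') v := by
      intro v j
      have h1 := ffq_upd q k (ll x') v (hzD x i) j
      rw [hcz' x x' i hi, Nat.zero_mul, Nat.zero_mul] at h1
      omega
    have q2 : ∀ (y : Fin F → Fin m) (v : ↥(DQ n q B b) → ℕ) (j j' : ℕ),
        ffq q k (ll y) (update v ⟨zf C (q * b + s i) M m i (y i), hzD y i⟩ j) = n →
        ffq q k (ll y) (update v ⟨zf C (q * b + s i) M m i (y i), hzD y i⟩ j') = n →
          j = j' := by
      intro y v j j' h1 h2
      have h3 := ffq_upd q k (ll y) v (hzD y i) j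
      have h4 := ffq_upd q k (ll y) v (hzD y i) j'
      rw [hcz y i, Nat.one_mul, Nat.one_mul, h1] at h3
      rw [hcz y i, Nat.one_mul, Nat.one_mul, h2] at h4
      have h5 : q * j = q * j' := by omega
      exact Nat.eq_of_mul_eq_mul_left hq h5
    have hup := H.upper (S x) (S x') (P x) (P x')
      (z := ⟨zf C (q * b + s i) M m i (x i), hzD x i⟩)
      (z' := ⟨zf C (q * b + s i) M m i (x' i), hzD x' i⟩)
      (Finset.mem_insert_of_mem (Finset.mem_image.2 ⟨i, Finset.mem_univ _, rfl⟩))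
      (Finset.mem_insert_of_mem (Finset.mem_image.2 ⟨i, Finset.mem_univ _, rfl⟩)) hzz
      (fun v j => by
        show ffq q k (ll x') (update v ⟨zf C (q * b + s i) M m i (x i), hzD x i⟩ j) = n ↔
          ffq q k (ll x') v = n
        rw [q1 v j])
      (fun v j j' h1 h2 => q2 x v j j' h1 h2) (fun v j j' h1 h2 => q2 x' v j j' h1 h2)
    refine hup.trans ?_
    have e1 : ∀ w : ℕ, C * M ≤ w → δ / (h w : ℝ) ≤ δ / Hmin := by
      intro w hw
      refine div_le_div_of_nonneg_left hδ.le (by exact_mod_cast hmin0) ?_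
      exact_mod_cast hmin.trans (hp.hmono hw)
    refine mul_le_mul (e1 _ (zf_ge _ _ _ _ _ _)) (e1 _ (zf_ge _ _ _ _ _ _)) ?_ ?_
    · positivity
    · positivity

end Pool.Agent.R500.WB
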