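import Mathlib
import Pool.Agent.R500.WA.Prob
import Pool.Agent.R500.WB.Block

set_option autoImplicit false

/-!
# Independence of the residue classes, with the noise in the multiples of `q`
-/

namespace Pool.Agent.R500.WB

open Finset Function MeasureTheory ProbabilityTheory
open Pool.Agent.R500.WA
open scoped Classical

variable {Ω : Type*} [MeasurableSpace Ω] {μ : Measure Ω} [IsProbabilityMeasure μ]
  {ξ : ℕ → Ω → ℕ} {h : ℕ → ℕ} {δ : ℝ}

/-- `n` is a sum of `t` moved powers. -/
def RepQ (q k t : ℕ) (a : ℕ → ℕ) (n : ℕ) : Prop :=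
  ∃ l : List ℕ, l.length = t ∧ (∀ y ∈ l, 1 ≤ y) ∧ (l.map (fun y => y ^ k + q * a y)).sum = n

lemma SuccQ.rep {q k t n B b : ℕ} {a : ℕ → ℕ} (hs : SuccQ q k t n B b (fun i => a i)) :
    RepQ q k t a n := by
  obtain ⟨l, h1, h2, h3, h4⟩ := hs
  refine ⟨l, h1, h2, ?_⟩
  rw [← h4]
  unfold ffq
  congr 1
  refine List.map_congr_left fun y hy => ?_
  unfold vv
  rw [dif_pos (h3 y hy)]

/-- **Independence of the residue classes.** -/
theorem failQ (H : Noise μ ξ h δ) {q k t n B : ℕ} {p : ℝ} (hp1 : p ≤ 1)
    (hp : ∀ b < B, p ≤ Ex (fun i : ↥(DQ n q B b) => h i) (nu μ ξ (DQ n q B b))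
      (fun v => if SuccQ q k t n B b v then 1 else 0)) :
    μ.real {ω | ¬ RepQ q k t (fun x => ξ x ω) n} ≤ (1 - p) ^ B := by
  have key : ∀ c ≤ B, μ.real {ω | ∀ b < c, ¬ SuccQ q k t n B b (fun i => ξ i ω)} ≤
      (1 - p) ^ c := by
    intro c
    induction c with
    | zero =>
      intro _
      simp
    | succ c ih =>
      intro hc
      have ih' := ih (by omega)
      set U : Finset ℕ := (range (n + 1)).filter (fun x => x / q % B < c) with hU
      have hsub : ∀ b < c, ∀ i ∈ DQ n q B b, i ∈ U := by
        intro b hb i hi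
        rw [mem_DQ] at hi
        rw [hU, Finset.mem_filter, Finset.mem_range]
        exact ⟨by omega, by omega⟩
      have hdis : Disjoint U (DQ n q B c) := by
        rw [Finset.disjoint_left]
        intro i hi hi'
        rw [hU, Finset.mem_filter] at hi
        rw [mem_DQ] at hi'
        omega
      have hind := H.indep.indepFun_finset U (DQ n q B c) hdis H.meas
      set G : Set (↥U → ℕ) := {v | ∀ b (hb : b < c),
        ¬ SuccQ q k t n B b (fun i => v ⟨i.1, hsub b hb i.1 i.2⟩)} with hG
      set G' : Set (↥(DQ n q B c) → ℕ) := {v | ¬ SuccQ q k t n B c v} with hG'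
      have hmul := hind.measure_inter_preimage_eq_mul G G' (Set.to_countable _).measurableSet
        (Set.to_countable _).measurableSet
      have e1 : {ω | ∀ b < c + 1, ¬ SuccQ q k t n B b (fun i => ξ i ω)} =
          (fun ω (i : ↥U) => ξ i ω) ⁻¹' G ∩ (fun ω (i : ↥(DQ n q B c)) => ξ i ω) ⁻¹' G' := by
        ext ω
        simp only [hG, hG', Set.mem_ofPred_eq, Set.mem_inter_iff, Set.mem_preimage]
        constructor
        · intro hω
          exact ⟨fun b hb => hω b (by omega), hω c (by omega)⟩
        · intro hω b hb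
          rcases Nat.lt_succ_iff_lt_or_eq.1 hb with hb | rfl
          · exact hω.1 b hb
          · exact hω.2
      have e2 : (fun ω (i : ↥U) => ξ i ω) ⁻¹' G =
          {ω | ∀ b < c, ¬ SuccQ q k t n B b (fun i => ξ i ω)} := by
        ext ω
        simp only [hG, Set.mem_ofPred_eq, Set.mem_preimage]
      have e3 : μ.real ((fun ω (i : ↥(DQ n q B c)) => ξ i ω) ⁻¹' G') ≤ 1 - p := by
        have hpc := (hp c (by omega)).trans (H.prob (DQ n q B c) (SuccQ q k t n B c))
        have hcompl : (fun ω (i : ↥(DQ n q B c)) => ξ i ω) ⁻¹' G' =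
            {ω | SuccQ q k t n B c (fun i => ξ i ω)}ᶜ := by
          ext ω
          simp only [hG', Set.mem_ofPred_eq, Set.mem_preimage, Set.mem_compl_iff]
        have hms : MeasurableSet {ω | SuccQ q k t n B c (fun i : ↥(DQ n q B c) => ξ i ω)} := by
          have hm : Measurable (fun ω (i : ↥(DQ n q B c)) => ξ i ω) :=
            measurable_pi_lambda _ fun i => H.meas i
          exact hm (Set.to_countable {v : ↥(DQ n q B c) → ℕ | SuccQ q k t n B c v}).measurableSet
        rw [hcompl, probReal_compl_eq_one_sub hms]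
        linarith
      rw [e1, measureReal_def, hmul, ENNReal.toReal_mul, ← measureReal_def, ← measureReal_def,
        e2, pow_succ]
      exact mul_le_mul ih' e3 measureReal_nonneg (pow_nonneg (by linarith) _)
  refine le_trans (measureReal_mono ?_ (measure_ne_top _ _)) (key B le_rfl)
  intro ω hω b _ hs
  exact hω hs.rep

end Pool.Agent.R500.WB
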