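import Mathlib
import Pool.Agent.R500.WA.Asym
import Pool.Agent.R500.WB.Prob

set_option autoImplicit false

/-!
# The choice of the parameters, with the noise in the multiples of `q`
-/

namespace Pool.Agent.R500.WB

open Finset Function MeasureTheory ProbabilityTheory Filter Topology
open Pool.Agent.R500.WA
open scoped Classical

/-- The size of the greedy sum. -/
lemma size_ineq' {k F J n T Y C M : ℕ} {D X : ℝ} (hk : 1 ≤ k) (hF1 : 1 ≤ F)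
    (hC1 : 1 ≤ C) (hn0 : (0 : ℝ) < n)
    (hD16 : (16 : ℝ) ≤ D) (hDF : (16 : ℝ) * F ≤ D) (hXk : X ^ k = n)
    (h2BM : ((2 * C * M : ℕ) : ℝ) ≤ 2 / D * X) (hY_le : (Y : ℝ) ≤ X / 4)
    (hBX : 8 * D * C ≤ X) (hT : (T : ℝ) ≤ n / 8)
    (E3 : 16 * (J : ℝ) * 2 ^ k * (C : ℝ) ^ k ≤ n) :
    F * (2 * C * M) ^ k + T + J * (2 * C) ^ k + (Y + C) ^ k ≤ n := by
  have hF0 : (0 : ℝ) < F := by exact_mod_cast hF1
  have hD0 : 0 < D := by linarith only [hD16]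
  have h1 : (F : ℝ) * ((2 * C * M : ℕ) : ℝ) ^ k ≤ n / 8 := by
    have h2 : ((2 * C * M : ℕ) : ℝ) ^ k ≤ (2 / D * X) ^ k :=
      pow_le_pow_left₀ (Nat.cast_nonneg _) h2BM _
    rw [mul_pow, hXk] at h2
    have h3 : (2 / (D : ℝ)) ^ k ≤ 2 / D := by
      refine pow_le_of_le_one (by positivity) ?_ (by omega)
      rw [div_le_one hD0]; linarith only [hD16]
    have h5 : (F : ℝ) * (2 / D) ≤ 1 / 8 := by
      rw [mul_div_assoc', div_le_div_iff₀ hD0 (by norm_num)]; linarith only [hDF]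
    calc (F : ℝ) * ((2 * C * M : ℕ) : ℝ) ^ k ≤ F * ((2 / D) ^ k * n) :=
          mul_le_mul_of_nonneg_left h2 hF0.le
      _ ≤ F * (2 / D * n) := by
          refine mul_le_mul_of_nonneg_left ?_ hF0.le
          exact mul_le_mul_of_nonneg_right h3 hn0.le
      _ = F * (2 / D) * n := by rw [mul_assoc]
      _ ≤ 1 / 8 * n := mul_le_mul_of_nonneg_right h5 hn0.le
      _ = n / 8 := by rw [one_div, inv_mul_eq_div]
  have h3 : (J : ℝ) * (2 * C) ^ k ≤ n / 16 := by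
    rw [mul_pow]
    linarith only [E3]
  have h4 : ((Y : ℝ) + C) ^ k ≤ n / 2 := by
    have hB0 : (1 : ℝ) ≤ C := by exact_mod_cast hC1
    have h5 : (C : ℝ) ≤ X / 4 := by
      have : (4 : ℝ) * C ≤ 8 * D * C := by
        refine mul_le_mul_of_nonneg_right ?_ (by linarith only [hB0])
        linarith only [hD16]
      linarith only [this, hBX]
    have h6 : (Y : ℝ) + C ≤ 1 / 2 * X := by linarith only [h5, hY_le]
    have h7 : ((Y : ℝ) + C) ^ k ≤ (1 / 2 * X) ^ k := pow_le_pow_left₀ (by positivity) h6 _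
    rw [mul_pow, hXk] at h7
    have h8 : (1 / 2 : ℝ) ^ k ≤ 1 / 2 :=
      pow_le_of_le_one (by norm_num) (by norm_num) (by omega)
    have := mul_le_mul_of_nonneg_right h8 hn0.le
    linarith only [this, h7]
  have h5 : ((F * (2 * C * M) ^ k + T + J * (2 * C) ^ k + (Y + C) ^ k : ℕ) : ℝ) ≤ n := by
    push_cast
    push_cast at h1
    linarith only [h1, hT, h3, h4, hn0]
  exact_mod_cast h5

/-- The final remainder fits into the noise range. -/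
lemma rem_ineq' {k F J n C L : ℕ} {e a₁ S h : ℝ} (hk : 1 ≤ k) (hC1 : 1 ≤ C) (hn0 : (0 : ℝ) < n)
    (hA : A k C = a₁ * C) (h8e0 : (0 : ℝ) < (1 / 8) ^ e)
    (hL_le : (L : ℝ) ≤ (1 / 8) ^ e / 4 * S + (F + J)) (h1 : (1 / 8) ^ e * S < h)
    (hS0 : 0 < S)
    (E6 : 8 * ((F : ℝ) + J + 1) / (1 / 8) ^ e ≤ S)
    (E7 : 8 * (2 * (J : ℝ) + 1) * 2 ^ k / (1 / 8) ^ e * (C : ℝ) ^ k ≤ S)
    (E8 : 8 * a₁ ^ (J + 1) / (1 / 8) ^ e * (C : ℝ) ^ (J + 1) * (n : ℝ) ^ (θ k ^ (J + 1)) ≤ S) :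
    (L : ℝ) + (2 * J + 1) * (2 * C) ^ k + A k C ^ J * (A k C * (n : ℝ) ^ θ k) ^ (θ k ^ J) < h := by
  have hθ0 := θ_nonneg hk
  have hθ1 := θ_lt hk
  refine lt_of_le_of_lt ?_ h1
  have h2 : ((F : ℝ) + J) ≤ (1 / 8) ^ e / 8 * S := by
    rw [div_le_iff₀ h8e0] at E6
    linarith only [E6]
  have h3 : (2 * (J : ℝ) + 1) * (2 * C) ^ k ≤ (1 / 8) ^ e / 8 * S := by
    rw [div_mul_eq_mul_div, div_le_iff₀ h8e0] at E7
    rw [mul_pow]
    linarith only [E7]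
  have h4 : A k C ^ J * (A k C * (n : ℝ) ^ θ k) ^ (θ k ^ J) ≤ (1 / 8) ^ e / 8 * S := by
    have hA1 := one_le_A hk hC1
    have hA0 : 0 ≤ A k C := by linarith only [hA1]
    have h5 : (A k C * (n : ℝ) ^ θ k) ^ (θ k ^ J) ≤ A k C * (n : ℝ) ^ (θ k ^ (J + 1)) := by
      rw [Real.mul_rpow hA0 (by positivity), ← Real.rpow_mul hn0.le, ← pow_succ']
      refine mul_le_mul_of_nonneg_right ?_ (by positivity)
      calc A k C ^ (θ k ^ J) ≤ A k C ^ (1 : ℝ) :=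
            Real.rpow_le_rpow_of_exponent_le hA1 (pow_le_one₀ hθ0 hθ1.le)
        _ = _ := Real.rpow_one _
    have h6 : A k C ^ J * (A k C * (n : ℝ) ^ θ k) ^ (θ k ^ J) ≤
        A k C ^ (J + 1) * (n : ℝ) ^ (θ k ^ (J + 1)) := by
      have := mul_le_mul_of_nonneg_left h5 (by positivity : (0 : ℝ) ≤ A k C ^ J)
      calc _ ≤ A k C ^ J * (A k C * (n : ℝ) ^ (θ k ^ (J + 1))) := this
        _ = _ := by rw [pow_succ (A k C) J, mul_assoc]
    refine h6.trans ?_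
    rw [hA, mul_pow]
    have e1 : 8 * a₁ ^ (J + 1) / (1 / 8) ^ e * (C : ℝ) ^ (J + 1) *
        (n : ℝ) ^ (θ k ^ (J + 1)) =
        (8 * a₁ ^ (J + 1) * (C : ℝ) ^ (J + 1) * (n : ℝ) ^ (θ k ^ (J + 1))) /
          (1 / 8) ^ e := by rw [div_mul_eq_mul_div, div_mul_eq_mul_div]
    rw [e1, div_le_iff₀ h8e0] at E8
    linarith only [E8]
  have h5 : (0 : ℝ) < (1 / 8) ^ e * S := mul_pos h8e0 hS0
  linarith only [h2, h3, h4, hL_le, h5]

lemma poly_leC (q : ℕ) (c : ℝ) (j : ℕ) {ε : ℝ} (hε : 0 < ε) :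
    ∀ᶠ n : ℕ in atTop, c * ((q * BB n : ℕ) : ℝ) ^ j ≤ (n : ℝ) ^ ε := by
  filter_upwards [poly_le (c * (q : ℝ) ^ j) j hε] with n hn
  refine le_trans (le_of_eq ?_) hn
  push_cast
  ring

lemma poly_leC' (q : ℕ) (c : ℝ) (j : ℕ) {a b : ℝ} (hab : a < b) :
    ∀ᶠ n : ℕ in atTop, c * ((q * BB n : ℕ) : ℝ) ^ j * (n : ℝ) ^ a ≤ (n : ℝ) ^ b := by
  filter_upwards [poly_le' (c * (q : ℝ) ^ j) j hab] with n hn
  refine le_trans (le_of_eq ?_) hn
  push_cast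
  ring

/-- **The uniform lower bound for all large `n` and all residue classes.** -/
theorem eventually_block {q k F J : ℕ} {η δ : ℝ} (hq : 1 ≤ q) (hk : 1 ≤ k) (hη0 : 0 < η)
    (hη1 : η < 1)
    (hF : η * k < F) (hJ : θ k ^ (J + 1) < η) (hδ0 : 0 < δ) (hδ1 : δ ≤ 1) :
    ∃ p : ℝ, 0 < p ∧ p ≤ 1 ∧ ∀ᶠ n : ℕ in atTop, ∀ b < BB n,
      ∀ ν : ↥(DQ n q (BB n) b) → ℕ → ℝ,
      Law (fun i : ↥(DQ n q (BB n) b) => hh (η * k) i) ν δ →
      ∀ r₀ < q, ∀ s : Fin F → ℕ, (∀ i, s i < q) → ∀ ts : List ℕ, (∀ c ∈ ts, c < q) →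
        ts.length = J →
        r₀ ^ k + ∑ i, s i ^ k + (ts.map (fun y => y ^ k)).sum ≡ n [MOD q] →
        p ≤ Ex (fun i : ↥(DQ n q (BB n) b) => hh (η * k) i) ν
          (fun v => if SuccQ q k (F + 1 + J) n (BB n) b v then 1 else 0) := by
  have hk0 : (0 : ℝ) < k := by exact_mod_cast hk
  obtain ⟨e, he⟩ : ∃ e : ℝ, e = η * k := ⟨_, rfl⟩
  rw [← he]
  have he0 : 0 < e := by rw [he]; positivity
  have hF0 : (0 : ℝ) < F := (by rw [← he] at hF; exact he0.trans hF)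
  have hF1 : 1 ≤ F := by exact_mod_cast hF0
  obtain ⟨D, hD16, hDF, hDL⟩ := exists_D F J he0
  have hD0 : (0 : ℝ) < D := by positivity
  have hD16' : (16 : ℝ) ≤ D := by exact_mod_cast hD16
  obtain ⟨c₁, hc₁⟩ : ∃ c₁ : ℝ, c₁ = (1 / (2 * D)) ^ e := ⟨_, rfl⟩
  have hc₁0 : 0 < c₁ := by rw [hc₁]; positivity
  have hc₁1 : c₁ ≤ 1 := by
    rw [hc₁]
    refine Real.rpow_le_one (by positivity) ?_ he0.le
    rw [div_le_one (by positivity)]
    linarith only [hD16']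
  obtain ⟨c₂, hc₂⟩ : ∃ c₂ : ℝ, c₂ = δ ^ F * c₁ ^ 2 / 8 := ⟨_, rfl⟩
  have hc₂0 : 0 < c₂ := by rw [hc₂]; positivity
  have hc₂1 : c₂ ≤ 1 := by
    have h1 : δ ^ F ≤ 1 := pow_le_one₀ hδ0.le hδ1
    have h2 : c₁ ^ 2 ≤ 1 := pow_le_one₀ hc₁0.le hc₁1
    have h3 : δ ^ F * c₁ ^ 2 ≤ 1 * 1 := mul_le_mul h1 h2 (by positivity) zero_le_one
    rw [hc₂]; linarith only [h3]
  refine ⟨c₂ * δ ^ (F + 1) / 16, by positivity, ?_, ?_⟩
  · have h1 : δ ^ (F + 1) ≤ 1 := pow_le_one₀ hδ0.le hδ1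
    have h2 : c₂ * δ ^ (F + 1) ≤ 1 * 1 := mul_le_mul hc₂1 h1 (by positivity) zero_le_one
    linarith only [h2]
  -- the asymptotic inequalities
  have hθ1 := θ_lt hk
  have hkinv : (0 : ℝ) < 1 / k := by positivity
  have hFk : η < (F : ℝ) / k := by rw [lt_div_iff₀ hk0]; exact hF
  obtain ⟨a₁, ha₁⟩ : ∃ a₁ : ℝ, a₁ = k * 2 ^ (k - 1) := ⟨_, rfl⟩
  have hAB : ∀ n : ℕ, A k (q * BB n) = a₁ * ((q * BB n : ℕ) : ℝ) := fun n => by
    unfold A; rw [ha₁]; ring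
  have E1 := poly_leC q (8 * D : ℝ) 1 hkinv
  have E2 := poly_leC' q (16 * q * (F + J : ℝ)) 0 hη1
  have E3 := poly_leC' q (16 * (J : ℝ) * 2 ^ k) k (zero_lt_one)
  have E4 := poly_leC' q (2 * (2 * D) ^ k * a₁ : ℝ) 1 hθ1
  have E5 := poly_leC' q (4 * (2 * D) ^ k * 2 ^ k : ℝ) k (zero_lt_one)
  have E6 := poly_leC q (8 * (F + J + 1 : ℝ) / (1 / 8) ^ e) 0 hη0
  have E7 := poly_leC q (8 * (2 * (J : ℝ) + 1) * 2 ^ k / (1 / 8) ^ e) k hη0
  have E8 := poly_leC' q (8 * a₁ ^ (J + 1) / (1 / 8) ^ e : ℝ) (J + 1) hJ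
  have E9 := poly_leC' q (4 * D * F : ℝ) 1 (show (0 : ℝ) < 1 / k from hkinv)
  have E10 := poly_leC' q ((4 * D * F : ℝ) ^ F) F hFk
  have E11 := poly_leC q (2 / c₂) 0 hη0
  filter_upwards [E1, E2, E3, E4, E5, E6, E7, E8, E9, E10, E11, eventually_gt_atTop 1] with n
    E1 E2 E3 E4 E5 E6 E7 E8 E9 E10 E11 hn1
  intro b hb ν H r₀ hr₀ s hs ts hts htsJ hsum
  have hn0 : (0 : ℝ) < n := by
    have : 0 < n := by omega
    exact_mod_cast this
  have hnone : (1 : ℝ) ≤ n := by exact_mod_cast hn1.le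
  simp only [pow_zero, mul_one, Real.rpow_one, Real.rpow_zero, pow_one] at E1 E2 E3 E4 E5 E6 E7 E8 E9 E10 E11
  have hAB' := hAB n
  clear hAB
  have hB1 : 1 ≤ BB n := by unfold BB; omega
  generalize BB n = B at *
  obtain ⟨C, hC⟩ : ∃ C : ℕ, C = q * B := ⟨_, rfl⟩
  rw [← hC] at hAB' E1 E3 E4 E5 E7 E8 E9 E10
  have hC1 : 1 ≤ C := by rw [hC]; exact Nat.mul_pos hq hB1
  have hB0 : (1 : ℝ) ≤ C := by exact_mod_cast hC1
  obtain ⟨X, hX⟩ : ∃ X : ℝ, X = (n : ℝ) ^ (1 / (k : ℝ)) := ⟨_, rfl⟩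
  rw [← hX] at E1 E9
  have hX0 : 0 < X := by rw [hX]; positivity
  have hXk : X ^ k = n := by
    rw [hX, ← Real.rpow_natCast, ← Real.rpow_mul hn0.le, one_div, inv_mul_cancel₀ hk0.ne',
      Real.rpow_one]
  have hXe : X ^ e = (n : ℝ) ^ η := by
    rw [hX, ← Real.rpow_mul hn0.le]
    congr 1
    rw [he, one_div, mul_comm, mul_assoc, mul_inv_cancel₀ hk0.ne', mul_one]
  obtain ⟨S, hS⟩ : ∃ S : ℝ, S = (n : ℝ) ^ η := ⟨_, rfl⟩
  rw [← hS] at E2 E6 E7 E8 E10 E11 hXe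
  have hS0 : 0 < S := by rw [hS]; positivity
  have hS1 : 1 ≤ S := by rw [hS]; exact Real.one_le_rpow hnone hη0.le
  have hDB0 : (0 : ℝ) < D * C := by positivity
  -- the choice of `M`
  obtain ⟨M, hM⟩ : ∃ M : ℕ, M = ⌊X / (D * C)⌋₊ := ⟨_, rfl⟩
  have hM_le : (M : ℝ) ≤ X / (D * C) := by rw [hM]; exact Nat.floor_le (by positivity)
  have hM_gt : X / (D * C) < M + 1 := by rw [hM]; exact Nat.lt_floor_add_one _
  have hXDB : 8 ≤ X / (D * C) := by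
    rw [le_div_iff₀ hDB0]
    calc (8 : ℝ) * (D * C) = 8 * D * C := by ring
      _ ≤ X := E1
  have hM1 : 1 ≤ M := by
    have : (0 : ℝ) < M := by linarith only [hM_gt, hXDB]
    exact_mod_cast this
  have hM2 : X / (D * C) / 2 ≤ M := by linarith only [hM_gt, hXDB]
  have hBM_le : (C : ℝ) * M ≤ X / D := by
    calc (C : ℝ) * M ≤ C * (X / (D * C)) := mul_le_mul_of_nonneg_left hM_le (by positivity)
      _ = X / D := by rw [mul_div_assoc', div_eq_div_iff hDB0.ne' hD0.ne']; ring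
  have hBM_ge : X / (2 * D) ≤ (C : ℝ) * M := by
    calc X / (2 * D) = C * (X / (D * C) / 2) := by
          rw [div_div, mul_div_assoc', div_eq_div_iff (by positivity) (by positivity)]; ring
      _ ≤ _ := mul_le_mul_of_nonneg_left hM2 (by positivity)
  obtain ⟨Y, hY⟩ : ∃ Y : ℕ, Y = ⌊X / 4⌋₊ := ⟨_, rfl⟩
  have hX64 : 128 ≤ X := by
    have h1 : (8 : ℝ) * 16 * 1 ≤ 8 * (D : ℝ) * C :=
      mul_le_mul (by linarith only [hD16']) hB0 zero_le_one (by positivity)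
    linarith only [h1, E1]
  have hY_le : (Y : ℝ) ≤ X / 4 := by rw [hY]; exact Nat.floor_le (by positivity)
  have hY_gt : X / 4 < Y + 1 := by rw [hY]; exact Nat.lt_floor_add_one (X / 4)
  have hY_ge : X / 8 ≤ Y := by linarith only [hY_gt, hX64]
  obtain ⟨L, hL⟩ : ∃ L : ℕ, L = (F + J) * hh e (2 * C * M) := ⟨_, rfl⟩
  have h2BM : ((2 * C * M : ℕ) : ℝ) ≤ 2 / D * X := by
    push_cast
    calc (2 : ℝ) * C * M = 2 * (C * M) := by ring
      _ ≤ 2 * (X / D) := mul_le_mul_of_nonneg_left hBM_le (by norm_num)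
      _ = _ := by ring
  have hL_le : (L : ℝ) ≤ (1 / 8) ^ e / 4 * S + (F + J) := by
    have h1 := hh_le he0.le h2BM
    rw [Real.mul_rpow (by positivity) hX0.le, hXe] at h1
    rw [hL]
    push_cast
    push_cast at hDL
    have h2 : (0 : ℝ) ≤ (F : ℝ) + J := by positivity
    calc ((F : ℝ) + J) * (hh e (2 * C * M) : ℝ) ≤ (F + J) * ((2 / (D : ℝ)) ^ e * S + 1) :=
          mul_le_mul_of_nonneg_left h1 h2
      _ = (F + J) * (2 / (D : ℝ)) ^ e * S + (F + J) := by ring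
      _ ≤ _ := by
          have := mul_le_mul_of_nonneg_right hDL hS0.le
          linarith only [this]
  have h8e : (1 / 8 : ℝ) ^ e ≤ 1 := Real.rpow_le_one (by norm_num) (by norm_num) he0.le
  have h8e0 : (0 : ℝ) < (1 / 8) ^ e := by positivity
  have hqL : ((q * L : ℕ) : ℝ) ≤ n / 8 := by
    have h4 : (1 : ℝ) ≤ F := by exact_mod_cast hF1
    have h5 : (0 : ℝ) ≤ J := Nat.cast_nonneg _
    have h6 : (1 / 8 : ℝ) ^ e / 4 * S ≤ (F + J) * S := by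
      refine mul_le_mul_of_nonneg_right ?_ hS0.le
      linarith only [h8e, h8e0, h4, h5]
    have h7 : (F : ℝ) + J ≤ (F + J) * S :=
      le_mul_of_one_le_right (by linarith only [h4, h5]) hS1
    have h8 : (L : ℝ) ≤ 2 * ((F + J) * S) := by linarith only [h6, h7, hL_le]
    have h9 := mul_le_mul_of_nonneg_left h8 (Nat.cast_nonneg (α := ℝ) q)
    push_cast
    linarith only [h9, E2]
  obtain ⟨m, hm⟩ : ∃ m : ℕ, m = M / F := ⟨_, rfl⟩
  have hpar : ParQ q k F J B C n M m L Y (hh e) := by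
    refine ⟨hk, hq, hB1, hC, hM1, ?_, hh_mono he0.le, ?_, ?_, ?_, hL.ge, ?_⟩
    · rw [hm]; exact Nat.mul_div_le M F
    · -- hY
      have h1 : ((2 * C * M : ℕ) : ℝ) ≤ X / 4 - 1 := by
        refine h2BM.trans ?_
        have h2 : 2 / (D : ℝ) ≤ 1 / 8 := by
          rw [div_le_div_iff₀ hD0 (by norm_num)]; linarith only [hD16']
        have h3 := mul_le_mul_of_nonneg_right h2 hX0.le
        linarith only [h3, hX64]
      have h2 : X / 4 - 1 ≤ Y := by linarith only [hY_gt]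
      exact_mod_cast h1.trans h2
    · -- hn
      exact size_ineq' hk hF1 hC1 hn0 hD16' (by exact_mod_cast hDF) hXk h2BM hY_le E1 hqL E3
    · -- hsmall
      exact small_ineq hn0 hD0 hX0 hXk hAB' hBM_ge E4 E5
    · -- hR
      have h1 : (1 / 8 * X) ^ e < (hh e Y : ℝ) :=
        hh_gt he0.le (by positivity) (by linarith only [hY_ge])
      rw [Real.mul_rpow (by norm_num) hX0.le, hXe] at h1
      exact rem_ineq' hk hC1 hn0 hAB' h8e0 hL_le h1 hS0 E6 E7 E8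
  -- the number of tuples
  obtain ⟨N, hN⟩ : ∃ N : ℕ, N = ⌊c₂ * S⌋₊ := ⟨_, rfl⟩
  have hN_le : (N : ℝ) ≤ c₂ * S := by rw [hN]; exact Nat.floor_le (by positivity)
  have hc₂S : 2 ≤ c₂ * S := by
    rw [div_le_iff₀ hc₂0] at E11
    linarith only [E11]
  have hN_ge : c₂ * S / 2 ≤ N := by
    have := Nat.lt_floor_add_one (c₂ * S)
    rw [← hN] at this
    linarith only [this, hc₂S]
  have hNm : N ≤ m ^ F :=
    tuples_ineq hF1 hD0 hB0 hX0 hX hn0 hS0 hc₂1 hN_le hm hM2 E9 E10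
  -- the noise ranges
  obtain ⟨Hmax, hHmax⟩ : ∃ Hmax : ℕ, Hmax = ⌊S⌋₊ + 1 := ⟨_, rfl⟩
  have hmax : ∀ x, x ^ k ≤ n → hh e x ≤ Hmax := by
    intro x hx
    unfold hh
    rw [hHmax]
    have h1 : (x : ℝ) ^ e ≤ S := by
      have h2 : (x : ℝ) ^ e = ((x : ℝ) ^ k) ^ η := by
        rw [← Real.rpow_natCast, ← Real.rpow_mul (Nat.cast_nonneg _), he, mul_comm]
      rw [h2, hS]
      refine Real.rpow_le_rpow (by positivity) ?_ hη0.le
      exact_mod_cast hx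
    have := Nat.floor_le_floor h1
    omega
  have hHmax_le : (Hmax : ℝ) ≤ 2 * S := by
    rw [hHmax]
    push_cast
    have := Nat.floor_le hS0.le
    linarith only [this, hS1]
  have hHmax0 : 0 < Hmax := by omega
  have hHmin0 : 0 < hh e (C * M) := by unfold hh; omega
  have hHmin_ge : c₁ * S ≤ (hh e (C * M) : ℝ) := by
    have h1 : (1 / (2 * D) * X) ^ e < (hh e (C * M) : ℝ) := by
      refine hh_gt he0.le (by positivity) ?_
      push_cast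
      calc 1 / (2 * (D : ℝ)) * X = X / (2 * D) := by ring
        _ ≤ _ := hBM_ge
    rw [Real.mul_rpow (by positivity) hX0.le, hXe, ← hc₁] at h1
    exact h1.le
  have hblock := hpar.block hb hr₀ hs hts htsJ hsum hNm hmax le_rfl hHmin0 hHmax0 hδ1 H
  refine le_trans ?_ hblock
  have hHmaxR : (0 : ℝ) < Hmax := by exact_mod_cast hHmax0
  rw [hc₂] at hN_le hN_ge ⊢
  exact final_ineq hδ0 hδ1 hc₁0 hS0 (Nat.cast_nonneg _) hN_le hN_ge hHmaxR hHmax_le hHmin_ge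

end Pool.Agent.R500.WB
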