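import Mathlib
import Pool.Agent.R500.WA.Main
import Pool.Agent.R500.WA.Det
import Pool.Agent.R500.WB.Asym

set_option autoImplicit false

/-!
# Sums of powers moved at random by multiples of `q`
-/

namespace Pool.Agent.R500.WB

open Finset Function MeasureTheory ProbabilityTheory Filter Topology
open Pool.Agent.R500.WA
open scoped Classical

lemma split {q k F J n : ℕ} (hq : 1 ≤ q) (l : List ℕ) (hl : l.length = F + 1 + J)
    (hs : (l.map (fun y => y ^ k)).sum ≡ n [MOD q]) :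
    ∃ r₀ < q, ∃ s : Fin F → ℕ, (∀ i, s i < q) ∧ ∃ ts : List ℕ, (∀ c ∈ ts, c < q) ∧
      ts.length = J ∧
      r₀ ^ k + ∑ i, s i ^ k + (ts.map (fun y => y ^ k)).sum ≡ n [MOD q] := by
  obtain ⟨l', hl'⟩ : ∃ l', l' = l.map (fun y => y % q) := ⟨_, rfl⟩
  have h1 : l'.length = F + 1 + J := by rw [hl', List.length_map, hl]
  have h2 : ∀ c ∈ l', c < q := by
    intro c hc
    rw [hl', List.mem_map] at hc
    obtain ⟨y, -, rfl⟩ := hc
    exact Nat.mod_lt _ hq
  have h3 : (l'.map (fun y => y ^ k)).sum ≡ n [MOD q] := by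
    refine Nat.ModEq.trans ?_ hs
    rw [hl']
    clear hl hl' hs h1 h2
    induction l with
    | nil => exact Nat.ModEq.refl _
    | cons y l ih =>
      simp only [List.map_cons, List.sum_cons]
      exact ((Nat.mod_modEq y q).pow k).add ih
  cases l' with
  | nil => simp at h1; omega
  | cons r₀ l' =>
    rw [List.length_cons] at h1
    have h4 : l'.length = F + J := by omega
    refine ⟨r₀, h2 r₀ (by simp), fun i => (l'.take F).get ⟨i, by rw [List.length_take]; omega⟩,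
      ?_, l'.drop F, ?_, ?_, ?_⟩
    · intro i
      refine h2 _ (List.mem_cons_of_mem _ ?_)
      exact List.mem_of_mem_take (List.get_mem _ _)
    · intro c hc
      exact h2 _ (List.mem_cons_of_mem _ (List.mem_of_mem_drop hc))
    · rw [List.length_drop]; omega
    · rw [List.map_cons, List.sum_cons] at h3
      have h5 : ∑ i : Fin F, (l'.take F).get ⟨i, by rw [List.length_take]; omega⟩ ^ k =
          ((l'.take F).map (fun y => y ^ k)).sum := by
        have h6 : (l'.take F).length = F := by rw [List.length_take]; omega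
        rw [← List.sum_ofFn]
        congr 1
        apply List.ext_getElem
        · rw [List.length_ofFn, List.length_map, h6]
        · intro i hi hi'
          simp
      rw [h5, add_assoc, ← List.sum_append, ← List.map_append, List.take_append_drop]
      exact h3

/-- **Sums of moved powers.** -/
theorem mainQ {q k F J : ℕ} {η δ : ℝ} (hq : 1 ≤ q) (hk : 1 ≤ k) (hη0 : 0 < η) (hη1 : η < 1)
    (hF : η * k < F) (hJ : θ k ^ (J + 1) < η) (hδ1 : δ ≤ 1) {Ω : Type*} [MeasurableSpace Ω]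
    {μ : Measure Ω} [IsProbabilityMeasure μ] {ξ : ℕ → Ω → ℕ} (H : Noise μ ξ (hh (η * k)) δ) :
    ∀ᵐ ω ∂μ, ∀ᶠ n : ℕ in atTop,
      (∃ l : List ℕ, l.length = F + 1 + J ∧ (l.map (fun y => y ^ k)).sum ≡ n [MOD q]) →
        RepQ q k (F + 1 + J) (fun x => ξ x ω) n := by
  obtain ⟨p, hp0, hp1, hp⟩ := eventually_block hq hk hη0 hη1 hF hJ H.δpos hδ1
  obtain ⟨Sol, hSol⟩ : ∃ Sol : ℕ → Prop, Sol = fun n =>
    ∃ l : List ℕ, l.length = F + 1 + J ∧ (l.map (fun y => y ^ k)).sum ≡ n [MOD q] := ⟨_, rfl⟩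
  have h1 : ∀ᶠ n : ℕ in atTop,
      μ.real {ω | Sol n ∧ ¬ RepQ q k (F + 1 + J) (fun x => ξ x ω) n} ≤ (1 - p) ^ BB n := by
    filter_upwards [hp] with n hn
    by_cases hs : Sol n
    · have hs' := hs
      rw [hSol] at hs'
      obtain ⟨l, hl, hl2⟩ := hs'
      obtain ⟨r₀, hr₀, s, hs1, ts, hts, htsJ, hsum⟩ := split hq l hl hl2
      have h2 : {ω | Sol n ∧ ¬ RepQ q k (F + 1 + J) (fun x => ξ x ω) n} =
          {ω | ¬ RepQ q k (F + 1 + J) (fun x => ξ x ω) n} := by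
        ext ω
        simp only [Set.mem_ofPred_eq, hs, true_and]
      rw [h2]
      exact failQ H hp1 fun b hb => hn b hb _ (H.law _) r₀ hr₀ s hs1 ts hts htsJ hsum
    · have h2 : {ω | Sol n ∧ ¬ RepQ q k (F + 1 + J) (fun x => ξ x ω) n} = ∅ := by
        ext ω
        simp only [Set.mem_ofPred_eq, hs, false_and, Set.mem_empty_iff_false]
      rw [h2]
      simp only [measureReal_empty]
      exact pow_nonneg (by linarith) _
  have h2 := ae_eventually_notMem (tsum_ne_top (by linarith) (by linarith) h1)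
  filter_upwards [h2] with ω hω
  filter_upwards [hω] with n hn
  intro hsol
  by_contra hcon
  exact hn ⟨by rw [hSol]; exact hsol, hcon⟩

/-- The version with the number of summands only. -/
theorem mainQ' {q k t : ℕ} {η δ : ℝ} (hq : 1 ≤ q) (hk : 1 ≤ k) (hη0 : 0 < η) (hη1 : η < 1)
    (hlog : Real.exp (-((t - 1 - η * k) / k)) < η) (ht2 : η * k + 1 < t)
    (hδ1 : δ ≤ 1) {Ω : Type*} [MeasurableSpace Ω]
    {μ : Measure Ω} [IsProbabilityMeasure μ] {ξ : ℕ → Ω → ℕ} (H : Noise μ ξ (hh (η * k)) δ) :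
    ∀ᵐ ω ∂μ, ∀ᶠ n : ℕ in atTop,
      (∃ l : List ℕ, l.length = t ∧ (l.map (fun y => y ^ k)).sum ≡ n [MOD q]) →
        RepQ q k t (fun x => ξ x ω) n := by
  have hk0 : (0 : ℝ) < k := by exact_mod_cast hk
  have hηk : 0 < η * k := by positivity
  have hfl := Nat.floor_le hηk.le
  have hfl' : ⌊η * k⌋₊ + 1 < t := by
    have : ((⌊η * k⌋₊ + 1 : ℕ) : ℝ) < t := by push_cast; linarith
    exact_mod_cast this
  have hF : η * k < ((⌊η * k⌋₊ + 1 : ℕ) : ℝ) := by
    push_cast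
    exact Nat.lt_floor_add_one _
  have hJ : θ k ^ ((t - (⌊η * k⌋₊ + 1) - 1) + 1) < η := by
    refine lt_of_le_of_lt (θ_pow_le hk _) (lt_of_le_of_lt ?_ hlog)
    rw [Real.exp_le_exp, neg_le_neg_iff]
    refine div_le_div_of_nonneg_right ?_ hk0.le
    have e1 : t - (⌊η * k⌋₊ + 1) - 1 + 1 = t - (⌊η * k⌋₊ + 1) := by omega
    rw [e1, Nat.cast_sub hfl'.le]
    push_cast
    linarith
  have hmain := mainQ hq hk hη0 hη1 hF hJ hδ1 H
  have e2 : ⌊η * k⌋₊ + 1 + 1 + (t - (⌊η * k⌋₊ + 1) - 1) = t := by omega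
  rw [e2] at hmain
  exact hmain

lemma RepQ.toFin {q k t n : ℕ} {a b : ℕ → ℕ} (hab : ∀ x, x ^ k + q * a x = b x)
    (h : RepQ q k t a n) : ∃ x : Fin t → ℕ, (∀ i, 0 < x i) ∧ ∑ i, b (x i) = n := by
  obtain ⟨l, h1, h2, h3⟩ := h
  subst h1
  refine ⟨fun i => l.get i, fun i => h2 _ (List.get_mem l i), ?_⟩
  rw [← h3]
  simp only [hab]
  rw [← List.sum_ofFn]
  congr 1
  conv_rhs => rw [← List.ofFn_get l]
  rw [List.map_ofFn]
  rfl

/-- **The main theorem in terms of the moved powers.** -/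
theorem coreQ {q k t : ℕ} {η δ : ℝ} (hq : 1 ≤ q) (hk : 1 ≤ k) (hη0 : 0 < η) (hη1 : η < 1)
    (ht : (η + Real.log (1 / η)) * k + 1 < t) (hδ0 : 0 < δ) (hδ1 : δ ≤ 1)
    {Ω : Type*} [MeasurableSpace Ω] {μ : Measure Ω} [IsProbabilityMeasure μ] {a : ℕ → Ω → ℕ}
    (hmeas : ∀ x, Measurable (a x)) (hindep : iIndepFun a μ)
    (hrange : ∀ (x : ℕ) (ω : Ω), ∃ j : ℕ, (j : ℝ) ≤ ((x : ℝ) ^ k) ^ η ∧ a x ω = x ^ k + q * j)
    (hlow : ∀ x j : ℕ, (j : ℝ) ≤ ((x : ℝ) ^ k) ^ η →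
      δ / (((x : ℝ) ^ k) ^ η + 1) ≤ μ.real {ω | a x ω = x ^ k + q * j}) :
    ∀ᵐ ω ∂μ, ∀ᶠ n : ℕ in atTop, (∃ ρ : Fin t → ℕ, ∑ i, ρ i ^ k ≡ n [MOD q]) →
      ∃ x : Fin t → ℕ, (∀ i, 0 < x i) ∧ ∑ i, a (x i) ω = n := by
  have hk0 : (0 : ℝ) < k := by exact_mod_cast hk
  have hpow : ∀ x : ℕ, ((x : ℝ) ^ k) ^ η = (x : ℝ) ^ (η * k) := by
    intro x
    rw [← Real.rpow_natCast, ← Real.rpow_mul (Nat.cast_nonneg _), mul_comm]
  have hlog0 : 0 < Real.log (1 / η) := Real.log_pos (by rw [lt_div_iff₀ hη0]; linarith)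
  have hηk : 0 < η * k := by positivity
  have hlk : 0 < Real.log (1 / η) * k := by positivity
  have ht' : η * k + 1 < t := by nlinarith
  have hdiv : ∀ x j : ℕ, (x ^ k + q * j - x ^ k) / q = j := by
    intro x j
    rw [Nat.add_sub_cancel_left]
    exact Nat.mul_div_cancel_left j hq
  have H : Noise μ (fun x ω => (a x ω - x ^ k) / q) (hh (η * k)) (δ / 2) := by
    refine ⟨fun x => (measurable_of_countable (fun m : ℕ => (m - x ^ k) / q)).comp (hmeas x),
      ?_, ?_, ?_, by positivity⟩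
    · exact hindep.comp (fun x m => (m - x ^ k) / q) (fun x => measurable_of_countable _)
    · intro x ω
      obtain ⟨j, h1, h2⟩ := hrange x ω
      rw [hpow] at h1
      rw [h2, hdiv]
      unfold hh
      have := Nat.le_floor h1
      omega
    · intro x j hj
      unfold hh at hj ⊢
      have hj' : j ≤ ⌊(x : ℝ) ^ (η * k)⌋₊ := by omega
      have hx0 : (0 : ℝ) ≤ (x : ℝ) ^ (η * k) := Real.rpow_nonneg (Nat.cast_nonneg _) _
      have h1 : (j : ℝ) ≤ ((x : ℝ) ^ k) ^ η := by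
        rw [hpow]
        exact (Nat.le_floor_iff hx0).1 hj'
      have h2 := hlow x j h1
      rw [hpow] at h2
      have h3 : {ω | (a x ω - x ^ k) / q = j} = {ω | a x ω = x ^ k + q * j} := by
        ext ω
        obtain ⟨i, -, h4⟩ := hrange x ω
        simp only [Set.mem_ofPred_eq]
        constructor
        · intro h5
          rw [h4, hdiv] at h5
          rw [h4, h5]
        · intro h5
          rw [h5, hdiv]
      rw [h3]
      refine le_trans ?_ h2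
      push_cast
      have h4 := Nat.lt_floor_add_one ((x : ℝ) ^ (η * k))
      rw [div_div]
      refine div_le_div_of_nonneg_left hδ0.le (by positivity) ?_
      linarith [Nat.cast_nonneg (α := ℝ) ⌊(x : ℝ) ^ (η * k)⌋₊]
  have hmain := mainQ' (t := t) (μ := μ) hq hk hη0 hη1 ?_ ht' (by linarith) H
  · filter_upwards [hmain] with ω hω
    filter_upwards [hω] with n hn
    intro hρ
    obtain ⟨ρ, hρ⟩ := hρ
    refine (hn ⟨List.ofFn ρ, by simp, ?_⟩).toFin (b := fun x => a x ω) (fun x => ?_)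
    · rw [List.map_ofFn, List.sum_ofFn]
      exact hρ
    · obtain ⟨j, -, h2⟩ := hrange x ω
      rw [h2, hdiv]
  · rw [← Real.lt_log_iff_exp_lt hη0, neg_lt]
    rw [← Real.log_inv, ← one_div, lt_div_iff₀ hk0]
    linarith

/-- **Existence of the model**, with a proportion at least `1 - δ` of the powers not moved. -/
theorem exists_movedQ (q k : ℕ) {η δ : ℝ} (hq : 1 ≤ q) (hδ0 : 0 < δ) (hδ1 : δ ≤ 1) :
    ∃ (Ω : Type) (_ : MeasurableSpace Ω) (μ : Measure Ω) (_ : IsProbabilityMeasure μ)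
      (a : ℕ → Ω → ℕ), (∀ x, Measurable (a x)) ∧ iIndepFun a μ ∧
      (∀ (x : ℕ) (ω : Ω), ∃ j : ℕ, (j : ℝ) ≤ ((x : ℝ) ^ k) ^ η ∧ a x ω = x ^ k + q * j) ∧
      (∀ x j : ℕ, (j : ℝ) ≤ ((x : ℝ) ^ k) ^ η →
        δ / (((x : ℝ) ^ k) ^ η + 1) ≤ μ.real {ω | a x ω = x ^ k + q * j}) ∧
      (∀ x, 1 - δ ≤ μ.real {ω | a x ω = x ^ k}) ∧
      (∀ᵐ ω ∂μ, ∀ c : ℝ, c < 1 - δ → ∀ᶠ n : ℕ in atTop,
        c * n ≤ ((range n).filter fun x => a x ω = x ^ k).card) := by
  obtain ⟨Ω, mΩ, μ, hμ, a, h1, h2, h3, h4, h5, h6⟩ := exists_moved2 k (η := η) hδ0 hδ1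
  refine ⟨Ω, mΩ, μ, hμ, fun x ω => x ^ k + q * (a x ω - x ^ k), ?_, ?_, ?_, ?_, ?_, ?_⟩
  · intro x
    exact (measurable_of_countable (fun m : ℕ => x ^ k + q * (m - x ^ k))).comp (h1 x)
  · exact h2.comp (fun x m => x ^ k + q * (m - x ^ k)) (fun x => measurable_of_countable _)
  · intro x ω
    refine ⟨a x ω - x ^ k, ?_, rfl⟩
    have := (h3 x ω).2
    rw [Nat.cast_sub (h3 x ω).1]
    push_cast
    linarith
  · intro x j hj
    refine (h4 x j hj).trans (measureReal_mono ?_ (measure_ne_top _ _))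
    intro ω hω
    rw [Set.mem_ofPred_eq] at hω ⊢
    dsimp only
    rw [hω, Nat.add_sub_cancel_left]
  · intro x
    refine (h5 x).trans (measureReal_mono ?_ (measure_ne_top _ _))
    intro ω hω
    rw [Set.mem_ofPred_eq] at hω ⊢
    dsimp only
    rw [hω, Nat.sub_self, mul_zero, add_zero]
  · filter_upwards [h6] with ω hω
    intro c hc
    filter_upwards [hω c hc] with n hn
    refine hn.trans ?_
    have : ((range n).filter fun x => a x ω = x ^ k) ⊆
        (range n).filter fun x => x ^ k + q * (a x ω - x ^ k) = x ^ k := by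
      intro x hx
      rw [Finset.mem_filter] at hx ⊢
      refine ⟨hx.1, ?_⟩
      rw [hx.2, Nat.sub_self, mul_zero, add_zero]
    exact_mod_cast Finset.card_le_card this

/-- **The deterministic corollary.** -/
theorem detQ {q k t : ℕ} {η δ : ℝ} (hq : 1 ≤ q) (hk : 1 ≤ k) (hη0 : 0 < η) (hη1 : η < 1)
    (ht : (η + Real.log (1 / η)) * k + 1 < t) (hδ0 : 0 < δ) (hδ1 : δ ≤ 1) :
    ∃ b : ℕ → ℕ, (∀ x : ℕ, ∃ j : ℕ, (j : ℝ) ≤ ((x : ℝ) ^ k) ^ η ∧ b x = x ^ k + q * j) ∧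
      (∀ᶠ n : ℕ in atTop, (1 - δ) * n ≤ ((range n).filter fun x => b x = x ^ k).card) ∧
      ∀ᶠ n : ℕ in atTop, (∃ ρ : Fin t → ℕ, ∑ i, ρ i ^ k ≡ n [MOD q]) →
        ∃ x : Fin t → ℕ, (∀ i, 0 < x i) ∧ ∑ i, b (x i) = n := by
  obtain ⟨Ω, mΩ, μ, hμ, a, h1, h2, h3, h4, -, h6⟩ :=
    exists_movedQ q k (η := η) (δ := δ / 2) hq (by linarith) (by linarith)
  have h7 := coreQ hq hk hη0 hη1 ht (by linarith : 0 < δ / 2) (by linarith) h1 h2 h3 h4
  obtain ⟨ω, h8, h9⟩ := (h6.and h7).exists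
  exact ⟨fun x => a x ω, fun x => h3 x ω, h8 (1 - δ) (by linarith), h9⟩

end Pool.Agent.R500.WB
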