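import Mathlib
import Pool.Agent.R500.WB.Main
import Pool.Agent.R500.WB.Local

set_option autoImplicit false

/-!
# The exact number of summands for a larger noise
-/

namespace Pool.Agent.R500.WB

open Finset Function MeasureTheory ProbabilityTheory Filter Topology
open Pool.Agent.R500.WA
open scoped Classical

/-- **The main theorem in terms of the moved powers**, with the exact parameters. -/
theorem coreFJ {q k F J : ℕ} {η δ : ℝ} (hq : 1 ≤ q) (hk : 1 ≤ k) (hη0 : 0 < η) (hη1 : η < 1)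
    (hF : η * k < F) (hJ : θ k ^ (J + 1) < η) (hδ0 : 0 < δ) (hδ1 : δ ≤ 1)
    {Ω : Type*} [MeasurableSpace Ω] {μ : Measure Ω} [IsProbabilityMeasure μ] {a : ℕ → Ω → ℕ}
    (hmeas : ∀ x, Measurable (a x)) (hindep : iIndepFun a μ)
    (hrange : ∀ (x : ℕ) (ω : Ω), ∃ j : ℕ, (j : ℝ) ≤ ((x : ℝ) ^ k) ^ η ∧ a x ω = x ^ k + q * j)
    (hlow : ∀ x j : ℕ, (j : ℝ) ≤ ((x : ℝ) ^ k) ^ η →
      δ / (((x : ℝ) ^ k) ^ η + 1) ≤ μ.real {ω | a x ω = x ^ k + q * j}) :
    ∀ᵐ ω ∂μ, ∀ᶠ n : ℕ in atTop, (∃ ρ : Fin (F + 1 + J) → ℕ, ∑ i, ρ i ^ k ≡ n [MOD q]) →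
      ∃ x : Fin (F + 1 + J) → ℕ, (∀ i, 0 < x i) ∧ ∑ i, a (x i) ω = n := by
  have hk0 : (0 : ℝ) < k := by exact_mod_cast hk
  have hpow : ∀ x : ℕ, ((x : ℝ) ^ k) ^ η = (x : ℝ) ^ (η * k) := by
    intro x
    rw [← Real.rpow_natCast, ← Real.rpow_mul (Nat.cast_nonneg _), mul_comm]
  have hdiv : ∀ x j : ℕ, (x ^ k + q * j - x ^ k) / q = j := by
    intro x j
    rw [Nat.add_sub_cancel_left]
    exact Nat.mul_div_cancel_left j hq
  have H : Noise μ (fun x ω => (a x ω - x ^ k) / q) (hh (η * k)) (δ / 2) := by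
    refine ⟨fun x => (measurable_of_countable (fun m : ℕ => (m - x ^ k) / q)).comp (hmeas x),
      ?_, ?_, ?_, by positivity⟩
    · exact hindep.comp (fun x m => (m - x ^ k) / q) (fun x => measurable_of_countable _)
    · intro x ω
      obtain ⟨j, h1, h2⟩ := hrange x ω
      rw [hpow] at h1
      rw [h2, hdiv]
      unfold hh
      have := Nat.le_floor h1
      omega
    · intro x j hj
      unfold hh at hj ⊢
      have hj' : j ≤ ⌊(x : ℝ) ^ (η * k)⌋₊ := by omega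
      have hx0 : (0 : ℝ) ≤ (x : ℝ) ^ (η * k) := Real.rpow_nonneg (Nat.cast_nonneg _) _
      have h1 : (j : ℝ) ≤ ((x : ℝ) ^ k) ^ η := by
        rw [hpow]
        exact (Nat.le_floor_iff hx0).1 hj'
      have h2 := hlow x j h1
      rw [hpow] at h2
      have h3 : {ω | (a x ω - x ^ k) / q = j} = {ω | a x ω = x ^ k + q * j} := by
        ext ω
        obtain ⟨i, -, h4⟩ := hrange x ω
        simp only [Set.mem_ofPred_eq]
        constructor
        · intro h5
          rw [h4, hdiv] at h5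
          rw [h4, h5]
        · intro h5
          rw [h5, hdiv]
      rw [h3]
      refine le_trans ?_ h2
      push_cast
      have h4 := Nat.lt_floor_add_one ((x : ℝ) ^ (η * k))
      rw [div_div]
      refine div_le_div_of_nonneg_left hδ0.le (by positivity) ?_
      linarith [Nat.cast_nonneg (α := ℝ) ⌊(x : ℝ) ^ (η * k)⌋₊]
  have hmain := mainQ (μ := μ) hq hk hη0 hη1 hF hJ (by linarith) H
  filter_upwards [hmain] with ω hω
  filter_upwards [hω] with n hn
  intro hρ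
  obtain ⟨ρ, hρ⟩ := hρ
  refine (hn ⟨List.ofFn ρ, by simp, ?_⟩).toFin (b := fun x => a x ω) (fun x => ?_)
  · rw [List.map_ofFn, List.sum_ofFn]
    exact hρ
  · obtain ⟨j, -, h2⟩ := hrange x ω
    rw [h2, hdiv]

/-- If `(1 - 1 / k) ^ (k + 1 - F) < η < F / k` with `F ≤ k`, then every number `t ≥ k + 1` of
summands is of the form `F + 1 + J` with admissible parameters. -/
lemma exists_FJ {k t F : ℕ} {η : ℝ} (hk : 2 ≤ k) (hF : F ≤ k)
    (h1 : (1 - 1 / (k : ℝ)) ^ (k + 1 - F) < η) (h2 : η < (F : ℝ) / k) (ht : k + 1 ≤ t) :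
    ∃ J : ℕ, η * k < F ∧ θ k ^ (J + 1) < η ∧ F + 1 + J = t := by
  have hk0 : (0 : ℝ) < k := by
    have : 0 < k := by omega
    exact_mod_cast this
  have hθ0 := θ_nonneg (show 1 ≤ k by omega)
  have hθ1 := θ_lt (show 1 ≤ k by omega)
  refine ⟨t - (F + 1), ?_, ?_, by omega⟩
  · rwa [lt_div_iff₀ hk0] at h2
  · refine lt_of_le_of_lt ?_ h1
    show θ k ^ _ ≤ θ k ^ _
    exact pow_le_pow_of_le_one hθ0 hθ1.le (by omega)

end Pool.Agent.R500.WB
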