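import Mathlib

set_option autoImplicit false

/-!
# Topologically generic sequences of moved powers
-/

namespace Pool.Agent.R500.WB

open Finset Filter Topology
open scoped Classical

/-- The sequences `b x = x ^ k + Q x * j` with `0 ≤ j ≤ (x ^ k) ^ η`. -/
def Seqs (k : ℕ) (Q : ℕ → ℕ) (η : ℝ) : Set (ℕ → ℕ) :=
  {b | ∀ x : ℕ, ∃ j : ℕ, (j : ℝ) ≤ ((x : ℝ) ^ k) ^ η ∧ b x = x ^ k + Q x * j}

/-- The moduli `Q x` are positive, each divides the next one, and `Q x ≤ x ^ ε` for every `ε > 0`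
and every large `x`. -/
structure Slow (Q : ℕ → ℕ) : Prop where
  pos : ∀ x, 1 ≤ Q x
  dvd : ∀ x, Q x ∣ Q (x + 1)
  slow : ∀ ε : ℝ, 0 < ε → ∀ᶠ x : ℕ in atTop, (Q x : ℝ) ≤ (x : ℝ) ^ ε

lemma Slow.dvd_of_le {Q : ℕ → ℕ} (hQ : Slow Q) {x y : ℕ} (hxy : x ≤ y) : Q x ∣ Q y := by
  induction hxy with
  | refl => exact dvd_rfl
  | step _ ih => exact ih.trans (hQ.dvd _)

/-- `n` is a sum of at most `t` terms of `b`. -/
def Rp (b : ℕ → ℕ) (t n : ℕ) : Prop := ∃ s ≤ t, ∃ x : Fin s → ℕ, ∑ i, b (x i) = n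

/-- The number of `n < N` which are sums of at most `t` terms of `b`. -/
noncomputable def cnt (b : ℕ → ℕ) (t N : ℕ) : ℕ := ((range N).filter (Rp b t)).card

variable {k q : ℕ} {Q : ℕ → ℕ} {η : ℝ}

lemma le_seq (hk : 1 ≤ k) {b : ℕ → ℕ} (hb : b ∈ Seqs k Q η) (x : ℕ) : x ≤ b x := by
  obtain ⟨j, -, h⟩ := hb x
  rw [h]
  exact (Nat.le_self_pow (by omega) x).trans (Nat.le_add_right _ _)

lemma Rp_congr (hk : 1 ≤ k) {b b' : ℕ → ℕ} (hb : b ∈ Seqs k Q η) {N : ℕ}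
    (h : ∀ x < N, b x = b' x) {t n : ℕ} (hn : n < N) (hr : Rp b t n) : Rp b' t n := by
  obtain ⟨s, hs, x, hx⟩ := hr
  refine ⟨s, hs, x, ?_⟩
  rw [← hx]
  refine Finset.sum_congr rfl fun i _ => ?_
  have h1 : b (x i) ≤ n := by
    rw [← hx]
    exact Finset.single_le_sum (f := fun i => b (x i)) (fun _ _ => Nat.zero_le _)
      (Finset.mem_univ i)
  exact (h _ ((le_seq hk hb _).trans_lt (h1.trans_lt hn))).symm

lemma cnt_congr (hk : 1 ≤ k) {b b' : ℕ → ℕ} (hb : b ∈ Seqs k Q η) (hb' : b' ∈ Seqs k Q η) {N : ℕ}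
    (h : ∀ x < N, b x = b' x) (t : ℕ) : cnt b t N = cnt b' t N := by
  unfold cnt
  congr 1
  refine Finset.filter_congr fun n hn => ?_
  rw [Finset.mem_range] at hn
  exact ⟨Rp_congr hk hb h hn, Rp_congr hk hb' (fun x hx => (h x hx).symm) hn⟩

/-- the divisibility exponent -/
noncomputable def ee (k q : ℕ) (η : ℝ) (x : ℕ) : ℕ := Nat.log (q + 1) ⌊((x : ℝ) ^ k) ^ η⌋₊

lemma exists_div (k q : ℕ) (η : ℝ) (x : ℕ) {d : ℕ} (hd : d ∣ q) :
    ∃ j : ℕ, (j : ℝ) ≤ ((x : ℝ) ^ k) ^ η ∧ (q + 1) ^ ee k q η x ∣ x ^ k + d * j := by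
  obtain ⟨R, hR⟩ : ∃ R, R = (q + 1) ^ ee k q η x := ⟨_, rfl⟩
  have hR0 : 0 < R := by rw [hR]; positivity
  haveI : NeZero R := ⟨hR0.ne'⟩
  have hcop : Nat.Coprime d R := by
    rw [hR]
    refine Nat.Coprime.pow_right _ ?_
    refine Nat.Coprime.coprime_dvd_left hd ?_
    simp
  have hnn : (0 : ℝ) ≤ ((x : ℝ) ^ k) ^ η := Real.rpow_nonneg (by positivity) _
  refine ⟨(-((x : ZMod R) ^ k) * (d : ZMod R)⁻¹).val, ?_, ?_⟩
  · have h1 := ZMod.val_lt (-((x : ZMod R) ^ k) * (d : ZMod R)⁻¹)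
    have h2 : (-((x : ZMod R) ^ k) * (d : ZMod R)⁻¹).val ≤ ⌊((x : ℝ) ^ k) ^ η⌋₊ := by
      by_cases h0 : ⌊((x : ℝ) ^ k) ^ η⌋₊ = 0
      · have h3 : R = 1 := by
          rw [hR]
          unfold ee
          rw [h0, Nat.log_zero_right, pow_zero]
        omega
      · have h3 : R ≤ ⌊((x : ℝ) ^ k) ^ η⌋₊ := by
          rw [hR]
          exact Nat.pow_log_le_self _ h0
        omega
    exact (Nat.le_floor_iff hnn).1 h2
  · rw [← hR, ← ZMod.natCast_eq_zero_iff]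
    push_cast
    rw [ZMod.natCast_zmod_val]
    have h3 := ZMod.coe_mul_inv_eq_one d hcop
    linear_combination (-((x : ZMod R) ^ k)) * h3

lemma card_mod_le (N D w : ℕ) :
    ((range N).filter fun n => n % D ≤ w).card ≤ (N / D + 1) * (w + 1) := by
  rw [← Finset.card_range (N / D + 1), ← Finset.card_range (w + 1), ← Finset.card_product]
  refine Finset.card_le_card_of_injOn (fun n => (n / D, n % D)) ?_ ?_
  · intro n hn
    rw [Finset.mem_coe, Finset.mem_filter, Finset.mem_range] at hn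
    rw [Finset.mem_coe, Finset.mem_product, Finset.mem_range, Finset.mem_range]
    exact ⟨Nat.lt_succ_of_le (Nat.div_le_div_right hn.1.le), Nat.lt_succ_of_le hn.2⟩
  · intro n _ m _ h
    simp only [Prod.mk.injEq] at h
    rw [← Nat.div_add_mod n D, ← Nat.div_add_mod m D, h.1, h.2]

/-- the scales -/
noncomputable def LL (η : ℝ) (N i : ℕ) : ℝ := (N : ℝ) ^ ((η / 2) ^ i)

lemma LL_anti {η : ℝ} (hη0 : 0 < η) (hη1 : η ≤ 1) {N : ℕ} (hN : 1 ≤ N) {i j : ℕ} (hij : i ≤ j) :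
    LL η N j ≤ LL η N i := by
  unfold LL
  refine Real.rpow_le_rpow_of_exponent_le (by exact_mod_cast hN) ?_
  exact pow_le_pow_of_le_one (by linarith) (by linarith) hij

lemma one_le_LL {η : ℝ} (hη0 : 0 < η) {N : ℕ} (hN : 1 ≤ N) (i : ℕ) : 1 ≤ LL η N i :=
  Real.one_le_rpow (by exact_mod_cast hN) (by positivity)

/-- the pigeonhole principle: one scale is free -/
lemma free_scale {η : ℝ} (hη0 : 0 < η) (hη1 : η ≤ 1) {N : ℕ} (hN : 1 ≤ N) {t s : ℕ} (hs : s ≤ t)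
    (y : Fin s → ℝ) : ∃ i : ℕ, i ≤ t ∧ ∀ m, ¬ (LL η N (i + 1) < y m ∧ y m ≤ LL η N i) := by
  by_contra hcon
  push Not at hcon
  choose f hf using fun i : Fin (t + 1) => hcon i.1 (Nat.lt_succ_iff.1 i.2)
  have hinj : Function.Injective f := by
    intro i j hij
    by_contra hne
    have key : ∀ i j : Fin (t + 1), i < j → f i ≠ f j := by
      intro i j hlt heq
      have h1 := (hf i).1
      have h2 := (hf j).2
      rw [heq] at h1
      have h3 : LL η N j.1 ≤ LL η N (i.1 + 1) := LL_anti hη0 hη1 hN hlt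
      linarith
    rcases lt_or_gt_of_ne hne with h | h
    · exact key i j h hij
    · exact key j i h hij.symm
  have := Fintype.card_le_of_injective f hinj
  simp only [Fintype.card_fin] at this
  omega

/-- the modulus of a scale -/
noncomputable def Dm (q : ℕ) (η : ℝ) (N i : ℕ) : ℕ :=
  (q + 1) ^ Nat.log (q + 1) ⌊(LL η N i / (q + 1)) ^ η⌋₊

lemma scale_real {q t N i : ℕ} {η : ℝ} (hq : 1 ≤ q) (hη0 : 0 < η) (hη1 : η ≤ 1) (hN : 1 ≤ N)
    (hL : (q : ℝ) + 1 ≤ LL η N i) :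
    (((N / Dm q η N i + 1) * (⌊(t : ℝ) * LL η N (i + 1)⌋₊ + 1) : ℕ) : ℝ) ≤
      ((2 * ((q : ℝ) + 1) ^ 2 + 1) * (t + 1)) * (N : ℝ) ^ (1 - (η / 2) ^ (i + 1)) := by
  have hN0 : (0 : ℝ) < N := by exact_mod_cast hN
  have hq0 : (0 : ℝ) < (q : ℝ) + 1 := by positivity
  obtain ⟨L, hLd⟩ : ∃ L, L = LL η N i := ⟨_, rfl⟩
  obtain ⟨L', hLd'⟩ : ∃ L', L' = LL η N (i + 1) := ⟨_, rfl⟩
  have hL'1 : 1 ≤ L' := by rw [hLd']; exact one_le_LL hη0 hN _
  rw [← hLd] at hL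
  rw [← hLd']
  have hL1 : 1 ≤ L := by rw [hLd]; exact one_le_LL hη0 hN _
  have hL0 : 0 < L := by linarith
  have hLη0 : 0 < L ^ η := Real.rpow_pos_of_pos hL0 _
  have hLN : L ≤ N := by
    rw [hLd]
    unfold LL
    calc (N : ℝ) ^ ((η / 2) ^ i) ≤ (N : ℝ) ^ (1 : ℝ) := by
          refine Real.rpow_le_rpow_of_exponent_le (by exact_mod_cast hN) ?_
          exact pow_le_one₀ (by linarith) (by linarith)
      _ = N := Real.rpow_one _
  have hLηN : L ^ η ≤ N := by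
    calc L ^ η ≤ L ^ (1 : ℝ) := Real.rpow_le_rpow_of_exponent_le hL1 hη1
      _ = L := Real.rpow_one _
      _ ≤ N := hLN
  -- the modulus
  obtain ⟨y, hy⟩ : ∃ y, y = (L / ((q : ℝ) + 1)) ^ η := ⟨_, rfl⟩
  have hy1 : 1 ≤ y := by
    rw [hy]
    exact Real.one_le_rpow (by rw [le_div_iff₀ hq0]; linarith) hη0.le
  obtain ⟨m, hm⟩ : ∃ m, m = ⌊y⌋₊ := ⟨_, rfl⟩
  have hm1 : 1 ≤ m := by rw [hm]; exact Nat.le_floor (by exact_mod_cast hy1)
  have hm2 : y < m + 1 := by rw [hm]; exact Nat.lt_floor_add_one y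
  have hm1' : (1 : ℝ) ≤ m := by exact_mod_cast hm1
  have hD : Dm q η N i = (q + 1) ^ Nat.log (q + 1) m := by
    unfold Dm
    rw [hm, hy, hLd]
  have hD0 : 0 < Dm q η N i := by rw [hD]; positivity
  have hD0' : (0 : ℝ) < Dm q η N i := by exact_mod_cast hD0
  have hmD : (m : ℝ) < Dm q η N i * ((q : ℝ) + 1) := by
    have h1 := Nat.lt_pow_succ_log_self (b := q + 1) (by omega) m
    rw [pow_succ, ← hD] at h1
    exact_mod_cast h1
  have hyL : L ^ η / ((q : ℝ) + 1) ≤ y := by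
    rw [hy, Real.div_rpow hL0.le hq0.le]
    refine div_le_div_of_nonneg_left hLη0.le (Real.rpow_pos_of_pos hq0 _) ?_
    calc ((q : ℝ) + 1) ^ η ≤ ((q : ℝ) + 1) ^ (1 : ℝ) :=
          Real.rpow_le_rpow_of_exponent_le (by linarith [Nat.cast_nonneg (α := ℝ) q]) hη1
      _ = _ := Real.rpow_one _
  have hkey : L ^ η ≤ 2 * ((q : ℝ) + 1) ^ 2 * Dm q η N i := by
    rw [div_le_iff₀ hq0] at hyL
    have h1 : y ≤ 2 * (Dm q η N i * ((q : ℝ) + 1)) := by linarith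
    calc L ^ η ≤ y * ((q : ℝ) + 1) := hyL
      _ ≤ 2 * (Dm q η N i * ((q : ℝ) + 1)) * ((q : ℝ) + 1) :=
          mul_le_mul_of_nonneg_right h1 hq0.le
      _ = _ := by ring
  have h1 : ((N / Dm q η N i + 1 : ℕ) : ℝ) ≤ (2 * ((q : ℝ) + 1) ^ 2 + 1) * (N / L ^ η) := by
    have h2 : ((N / Dm q η N i : ℕ) : ℝ) ≤ N / Dm q η N i := Nat.cast_div_le
    have h3 : (N : ℝ) / Dm q η N i ≤ 2 * ((q : ℝ) + 1) ^ 2 * (N / L ^ η) := by
      rw [mul_div_assoc', div_le_div_iff₀ hD0' hLη0]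
      calc (N : ℝ) * L ^ η ≤ N * (2 * ((q : ℝ) + 1) ^ 2 * Dm q η N i) :=
            mul_le_mul_of_nonneg_left hkey hN0.le
        _ = _ := by ring
    have h4 : (1 : ℝ) ≤ N / L ^ η := by rw [le_div_iff₀ hLη0]; linarith
    push_cast
    rw [add_mul, one_mul]
    linarith
  have h2 : ((⌊(t : ℝ) * L'⌋₊ + 1 : ℕ) : ℝ) ≤ (t + 1) * L' := by
    have h3 : (0 : ℝ) ≤ (t : ℝ) * L' := by positivity
    have := Nat.floor_le h3
    push_cast
    rw [add_mul, one_mul]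
    linarith
  have h3 : (N : ℝ) / L ^ η * L' = (N : ℝ) ^ (1 - (η / 2) ^ (i + 1)) := by
    have e1 : L ^ η = (N : ℝ) ^ ((η / 2) ^ i * η) := by
      rw [hLd]
      unfold LL
      rw [← Real.rpow_mul hN0.le]
    have e2 : L' = (N : ℝ) ^ ((η / 2) ^ (i + 1)) := by rw [hLd']; rfl
    rw [e1, e2]
    nth_rewrite 1 [← Real.rpow_one (N : ℝ)]
    rw [← Real.rpow_sub hN0, ← Real.rpow_add hN0]
    congr 1
    rw [pow_succ]
    ring
  rw [← h3]
  push_cast
  push_cast at h1 h2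
  have h4 : (0 : ℝ) ≤ (⌊(t : ℝ) * L'⌋₊ : ℝ) + 1 := by positivity
  have h5 : (0 : ℝ) ≤ (2 * ((q : ℝ) + 1) ^ 2 + 1) * (N / L ^ η) := by positivity
  calc _ ≤ (2 * ((q : ℝ) + 1) ^ 2 + 1) * (N / L ^ η) * ((t + 1) * L') :=
        mul_le_mul h1 h2 h4 h5
    _ = _ := by ring

lemma LL_tendsto {η : ℝ} (hη0 : 0 < η) (i : ℕ) (c : ℝ) : ∀ᶠ N : ℕ in atTop, c < LL η N i := by
  unfold LL
  have h1 : 0 < (η / 2) ^ i := by positivity
  exact ((tendsto_rpow_atTop h1).comp tendsto_natCast_atTop_atTop).eventually_gt_atTop c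

lemma seq_le {b : ℕ → ℕ} (hk : 1 ≤ k) (hη0 : 0 < η) (hη1 : η ≤ 1) (hb : b ∈ Seqs k Q η) (x : ℕ)
    (hx : Q x ≤ q) : (b x : ℝ) ≤ (q + 1) * (x : ℝ) ^ k := by
  obtain ⟨j, hj, h⟩ := hb x
  have h1 : ((x : ℝ) ^ k) ^ η ≤ (x : ℝ) ^ k := by
    rcases Nat.eq_zero_or_pos x with h0 | h0
    · rw [h0, Nat.cast_zero, zero_pow (by omega), Real.zero_rpow hη0.ne']
    · have h2 : (1 : ℝ) ≤ (x : ℝ) ^ k := one_le_pow₀ (by exact_mod_cast h0)
      calc ((x : ℝ) ^ k) ^ η ≤ ((x : ℝ) ^ k) ^ (1 : ℝ) :=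
            Real.rpow_le_rpow_of_exponent_le h2 hη1
        _ = _ := Real.rpow_one _
  rw [h]
  push_cast
  have h3 : (Q x : ℝ) * j ≤ q * (x : ℝ) ^ k :=
    mul_le_mul (by exact_mod_cast hx) (hj.trans h1) (Nat.cast_nonneg _) (Nat.cast_nonneg _)
  linarith

/-- **The sumsets of a divisible sequence are thin.** -/
theorem count_le (hk : 1 ≤ k) (hq : 1 ≤ q) (hη0 : 0 < η) (hη1 : η ≤ 1) {b : ℕ → ℕ}
    (hb : b ∈ Seqs k Q η) {P₀ B₀ N t : ℕ} (hdiv : ∀ x ≥ P₀, x ≤ N → (q + 1) ^ ee k q η x ∣ b x)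
    (hQq : ∀ x ≤ N, Q x ≤ q) (hB₀ : ∀ x < P₀, b x ≤ B₀) (hN : 1 ≤ N) (E1 : (B₀ : ℝ) < LL η N t)
    (E2 : (q : ℝ) + 1 ≤ LL η N t)
    (E3 : ((t : ℝ) + 1) * ((2 * ((q : ℝ) + 1) ^ 2 + 1) * (t + 1)) ≤
      (N : ℝ) ^ ((η / 2) ^ (t + 1) - (η / 2) ^ (t + 2))) :
    (cnt b t N : ℝ) ≤ (N : ℝ) ^ (1 - (η / 2) ^ (t + 2)) := by
  have hN0 : (0 : ℝ) < N := by exact_mod_cast hN
  have hNone : (1 : ℝ) ≤ N := by exact_mod_cast hN
  have hsub : (range N).filter (Rp b t) ⊆ (range (t + 1)).biUnion fun i =>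
      (range N).filter fun n => n % Dm q η N i ≤ ⌊(t : ℝ) * LL η N (i + 1)⌋₊ := by
    intro n hn
    rw [Finset.mem_filter] at hn
    obtain ⟨s, hs, x, hx⟩ := hn.2
    obtain ⟨i, hi, hfree⟩ := free_scale hη0 hη1 hN hs (fun m => (b (x m) : ℝ))
    rw [Finset.mem_biUnion]
    refine ⟨i, Finset.mem_range.2 (by omega), ?_⟩
    rw [Finset.mem_filter]
    refine ⟨hn.1, ?_⟩
    have hLi : LL η N t ≤ LL η N i := LL_anti hη0 hη1 hN hi
    have hbig : ∀ m, LL η N i < (b (x m) : ℝ) → Dm q η N i ∣ b (x m) := by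
      intro m hm
      have h0 : x m ≤ N := by
        have h1 : b (x m) ≤ n := by
          rw [← hx]
          exact Finset.single_le_sum (f := fun i => b (x i)) (fun _ _ => Nat.zero_le _)
            (Finset.mem_univ m)
        exact (le_seq hk hb _).trans (h1.trans (Finset.mem_range.1 hn.1).le)
      have h1 : P₀ ≤ x m := by
        by_contra hcon
        push Not at hcon
        have h2 : (b (x m) : ℝ) ≤ B₀ := by exact_mod_cast hB₀ _ hcon
        linarith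
      refine dvd_trans ?_ (hdiv _ h1 h0)
      unfold Dm ee
      refine pow_dvd_pow _ (Nat.log_mono_right (Nat.floor_le_floor ?_))
      have h3 := seq_le hk hη0 hη1 hb (x m) (hQq _ h0)
      have h4 : (0 : ℝ) < (q : ℝ) + 1 := by positivity
      refine Real.rpow_le_rpow (div_nonneg (by linarith [one_le_LL hη0 hN i]) h4.le) ?_ hη0.le
      rw [div_le_iff₀ h4]
      linarith
    have hu : Dm q η N i ∣ ∑ m ∈ (univ : Finset (Fin s)).filter
        (fun m => LL η N i < (b (x m) : ℝ)), b (x m) :=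
      Finset.dvd_sum fun m hm => hbig m (Finset.mem_filter.1 hm).2
    have hv : ((∑ m ∈ (univ : Finset (Fin s)).filter
        (fun m => ¬ LL η N i < (b (x m) : ℝ)), b (x m) : ℕ) : ℝ) ≤ t * LL η N (i + 1) := by
      push_cast
      have h1 : ∀ m ∈ (univ : Finset (Fin s)).filter
          (fun m => ¬ LL η N i < (b (x m) : ℝ)), (b (x m) : ℝ) ≤ LL η N (i + 1) := by
        intro m hm
        have h2 := (Finset.mem_filter.1 hm).2
        push Not at h2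
        by_contra hcon
        push Not at hcon
        exact hfree m ⟨hcon, h2⟩
      have h2 := Finset.sum_le_card_nsmul _ _ _ h1
      refine h2.trans ?_
      rw [nsmul_eq_mul]
      refine mul_le_mul_of_nonneg_right ?_ (by linarith [one_le_LL hη0 hN (i + 1)])
      have h3 := Finset.card_filter_le (univ : Finset (Fin s))
        (fun m => ¬ LL η N i < (b (x m) : ℝ))
      rw [Finset.card_univ, Fintype.card_fin] at h3
      exact_mod_cast h3.trans hs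
    have hsum := Finset.sum_filter_add_sum_filter_not (univ : Finset (Fin s))
      (fun m => LL η N i < (b (x m) : ℝ)) (fun m => b (x m))
    rw [hx] at hsum
    have hmod : n % Dm q η N i ≤ ∑ m ∈ (univ : Finset (Fin s)).filter
        (fun m => ¬ LL η N i < (b (x m) : ℝ)), b (x m) := by
      rw [← hsum]
      obtain ⟨c, hc⟩ := hu
      rw [hc, Nat.mul_add_mod]
      exact Nat.mod_le _ _
    exact hmod.trans (Nat.le_floor hv)
  have hcard : (cnt b t N : ℝ) ≤ ∑ i ∈ range (t + 1),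
      ((2 * ((q : ℝ) + 1) ^ 2 + 1) * (t + 1)) * (N : ℝ) ^ (1 - (η / 2) ^ (t + 1)) := by
    have h1 : cnt b t N ≤ ∑ i ∈ range (t + 1), (N / Dm q η N i + 1) *
        (⌊(t : ℝ) * LL η N (i + 1)⌋₊ + 1) := by
      unfold cnt
      refine (Finset.card_le_card hsub).trans (Finset.card_biUnion_le.trans ?_)
      exact Finset.sum_le_sum fun i _ => card_mod_le _ _ _
    have h2 : (cnt b t N : ℝ) ≤ ((∑ i ∈ range (t + 1), (N / Dm q η N i + 1) *
        (⌊(t : ℝ) * LL η N (i + 1)⌋₊ + 1) : ℕ) : ℝ) := by exact_mod_cast h1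
    refine h2.trans ?_
    rw [Nat.cast_sum]
    refine Finset.sum_le_sum fun i hi => ?_
    rw [Finset.mem_range] at hi
    have h3 : (q : ℝ) + 1 ≤ LL η N i :=
      E2.trans (LL_anti hη0 hη1 hN (by omega))
    refine (scale_real hq hη0 hη1 hN h3).trans ?_
    refine mul_le_mul_of_nonneg_left ?_ (by positivity)
    refine Real.rpow_le_rpow_of_exponent_le hNone ?_
    have h4 : (η / 2) ^ (t + 1) ≤ (η / 2) ^ (i + 1) :=
      pow_le_pow_of_le_one (by linarith) (by linarith) (by omega)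
    linarith
  rw [Finset.sum_const, Finset.card_range, nsmul_eq_mul] at hcard
  push_cast at hcard
  refine hcard.trans ?_
  rw [← mul_assoc]
  have h5 : (N : ℝ) ^ (1 - (η / 2) ^ (t + 2)) =
      (N : ℝ) ^ ((η / 2) ^ (t + 1) - (η / 2) ^ (t + 2)) * (N : ℝ) ^ (1 - (η / 2) ^ (t + 1)) := by
    rw [← Real.rpow_add hN0]
    congr 1
    ring
  rw [h5]
  exact mul_le_mul_of_nonneg_right E3 (by positivity)

/-- The prefix is kept, and the other terms up to `N` are made divisible. -/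
lemma exists_ext (hQ : Slow Q) {b₀ : ℕ → ℕ} (hb₀ : b₀ ∈ Seqs k Q η) (P N : ℕ) :
    ∃ b ∈ Seqs k Q η, (∀ x < P, b x = b₀ x) ∧
      ∀ x ≥ P, x ≤ N → (Q N + 1) ^ ee k (Q N) η x ∣ b x := by
  have h : ∀ x : ℕ, ∃ j : ℕ, (j : ℝ) ≤ ((x : ℝ) ^ k) ^ η ∧
      (x ≤ N → (Q N + 1) ^ ee k (Q N) η x ∣ x ^ k + Q x * j) := by
    intro x
    by_cases hx : x ≤ N
    · obtain ⟨j, h1, h2⟩ := exists_div k (Q N) η x (hQ.dvd_of_le hx)
      exact ⟨j, h1, fun _ => h2⟩
    · exact ⟨0, by rw [Nat.cast_zero]; positivity, fun h => absurd h hx⟩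
  choose j hj1 hj2 using h
  refine ⟨fun x => if x < P then b₀ x else x ^ k + Q x * j x, ?_, ?_, ?_⟩
  · intro x
    by_cases hx : x < P
    · simp only [if_pos hx]
      exact hb₀ x
    · simp only [if_neg hx]
      exact ⟨j x, hj1 x, rfl⟩
  · intro x hx
    simp only [if_pos hx]
  · intro x hx hxN
    simp only [if_neg (not_lt.2 hx)]
    exact hj2 x hxN

/-- the conditions on `N` -/
lemma exists_N (hQ : Slow Q) (hη0 : 0 < η) (hη1 : η ≤ 1) (B₀ t : ℕ) :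
    ∀ᶠ N : ℕ in atTop, 1 ≤ N ∧ (B₀ : ℝ) < LL η N t ∧ (Q N : ℝ) + 1 ≤ LL η N t ∧
      ((t : ℝ) + 1) * ((2 * ((Q N : ℝ) + 1) ^ 2 + 1) * (t + 1)) ≤
        (N : ℝ) ^ ((η / 2) ^ (t + 1) - (η / 2) ^ (t + 2)) := by
  have he : 0 < (η / 2) ^ t := by positivity
  have hexp : 0 < (η / 2) ^ (t + 1) - (η / 2) ^ (t + 2) := by
    rw [pow_succ (η / 2) (t + 1)]
    have h1 : 0 < (η / 2) ^ (t + 1) := by positivity
    nlinarith
  obtain ⟨c, hc⟩ : ∃ c, c = ((η / 2) ^ (t + 1) - (η / 2) ^ (t + 2)) / 3 := ⟨_, rfl⟩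
  have hc0 : 0 < c := by rw [hc]; positivity
  have E1 := hQ.slow ((η / 2) ^ t / 2) (by positivity)
  have E2 := hQ.slow c hc0
  have E3 := ((tendsto_rpow_atTop (y := (η / 2) ^ t / 2) (by positivity)).comp
    tendsto_natCast_atTop_atTop).eventually_ge_atTop (2 : ℝ)
  have E4 := ((tendsto_rpow_atTop hc0).comp tendsto_natCast_atTop_atTop).eventually_ge_atTop
    (((t : ℝ) + 1) * (9 * (t + 1)))
  filter_upwards [LL_tendsto hη0 t B₀, E1, E2, E3, E4, eventually_ge_atTop 1] with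
    N h1 h2 h3 h4 h5 hN
  have hN0 : (0 : ℝ) < N := by exact_mod_cast hN
  simp only [Function.comp_apply] at h4 h5
  have hQ1 : (1 : ℝ) ≤ Q N := by exact_mod_cast hQ.pos N
  refine ⟨hN, h1, ?_, ?_⟩
  · have h6 : LL η N t = (N : ℝ) ^ ((η / 2) ^ t / 2) * (N : ℝ) ^ ((η / 2) ^ t / 2) := by
      unfold LL
      rw [← Real.rpow_add hN0]
      congr 1
      ring
    rw [h6]
    nlinarith
  · have h6 : (N : ℝ) ^ ((η / 2) ^ (t + 1) - (η / 2) ^ (t + 2)) =
        (N : ℝ) ^ c * ((N : ℝ) ^ c * (N : ℝ) ^ c) := by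
      rw [← Real.rpow_add hN0, ← Real.rpow_add hN0]
      congr 1
      rw [hc]
      ring
    rw [h6]
    have h7 : 2 * ((Q N : ℝ) + 1) ^ 2 + 1 ≤ 9 * ((Q N : ℝ) * Q N) := by nlinarith
    have h8 : (Q N : ℝ) * Q N ≤ (N : ℝ) ^ c * (N : ℝ) ^ c :=
      mul_le_mul h3 h3 (by linarith) (by positivity)
    calc ((t : ℝ) + 1) * ((2 * ((Q N : ℝ) + 1) ^ 2 + 1) * (t + 1))
        ≤ ((t : ℝ) + 1) * ((9 * ((Q N : ℝ) * Q N)) * (t + 1)) := by
          refine mul_le_mul_of_nonneg_left ?_ (by positivity)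
          exact mul_le_mul_of_nonneg_right h7 (by positivity)
      _ = (((t : ℝ) + 1) * (9 * (t + 1))) * ((Q N : ℝ) * Q N) := by ring
      _ ≤ (N : ℝ) ^ c * ((N : ℝ) ^ c * (N : ℝ) ^ c) :=
          mul_le_mul h5 h8 (by positivity) (by positivity)

/-- the good sets -/
def Good (k : ℕ) (Q : ℕ → ℕ) (η : ℝ) (t M : ℕ) : Set ↥(Seqs k Q η) :=
  {b | ∃ N ≥ M, (cnt b.1 t N : ℝ) ≤ (N : ℝ) ^ (1 - (η / 2) ^ (t + 2))}

lemma isOpen_Good (hk : 1 ≤ k) (t M : ℕ) : IsOpen (Good k Q η t M) := by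
  rw [isOpen_iff_forall_mem_open]
  rintro b ⟨N, hNM, hN⟩
  refine ⟨⋂ x ∈ range N, {b' : ↥(Seqs k Q η) | b'.1 x = b.1 x}, ?_, ?_, ?_⟩
  · intro b' hb'
    simp only [Set.mem_iInter, Finset.mem_range, Set.mem_ofPred_eq] at hb'
    refine ⟨N, hNM, ?_⟩
    rw [cnt_congr hk b'.2 b.2 hb' t]
    exact hN
  · refine isOpen_biInter_finset fun x _ => ?_
    have h1 : Continuous fun b' : ↥(Seqs k Q η) => b'.1 x :=
      (continuous_apply x).comp continuous_subtype_val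
    exact (isOpen_discrete {b.1 x}).preimage h1
  · simp

lemma dense_Good (hk : 1 ≤ k) (hQ : Slow Q) (hη0 : 0 < η) (hη1 : η ≤ 1) (t M : ℕ) :
    Dense (Good k Q η t M) := by
  rw [dense_iff_inter_open]
  rintro U hU ⟨b₀, hb₀⟩
  obtain ⟨V, hV, rfl⟩ := isOpen_induced_iff.1 hU
  obtain ⟨I, u, hu, hIu⟩ := isOpen_pi_iff.1 hV b₀.1 hb₀
  obtain ⟨P, hP⟩ : ∃ P, P = I.sup id + 1 := ⟨_, rfl⟩
  obtain ⟨B₀, hB₀⟩ : ∃ B₀ : ℕ, ∀ x < P, b₀.1 x ≤ B₀ :=
    ⟨∑ x ∈ range P, b₀.1 x, fun x hx => Finset.single_le_sum (f := b₀.1)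
      (fun _ _ => Nat.zero_le _) (Finset.mem_range.2 hx)⟩
  obtain ⟨N, ⟨hN, E1, E2, E3⟩, hNM⟩ :=
    ((exists_N hQ hη0 hη1 B₀ t).and (eventually_ge_atTop M)).exists
  obtain ⟨b, hb, hb1, hb2⟩ := exists_ext hQ b₀.2 P N
  refine ⟨⟨b, hb⟩, ?_, ?_⟩
  · show b ∈ V
    apply hIu
    intro i hi
    have h1 : i < P := by
      rw [hP]
      exact Nat.lt_succ_of_le (Finset.le_sup (f := id) hi)
    rw [hb1 i h1]
    exact (hu i hi).2
  · refine ⟨N, hNM, ?_⟩
    exact count_le hk (hQ.pos N) hη0 hη1 hb hb2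
      (fun x hx => Nat.le_of_dvd (hQ.pos N) (hQ.dvd_of_le hx))
      (fun x hx => by rw [hb1 x hx]; exact hB₀ x hx) hN E1 E2 E3

/-- The space of the sequences is compact. -/
lemma compact_Seqs (k : ℕ) (Q : ℕ → ℕ) (η : ℝ) : CompactSpace ↥(Seqs k Q η) := by
  rw [← isCompact_iff_compactSpace]
  have h1 : Seqs k Q η = Set.pi Set.univ fun x : ℕ =>
      {v : ℕ | ∃ j : ℕ, (j : ℝ) ≤ ((x : ℝ) ^ k) ^ η ∧ v = x ^ k + Q x * j} := by
    ext b
    simp only [Seqs, Set.mem_pi, Set.mem_univ, Set.mem_ofPred_eq, true_implies]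
  rw [h1]
  refine isCompact_univ_pi fun x => ?_
  refine Set.Finite.isCompact ?_
  refine (Set.Finite.image (fun j => x ^ k + Q x * j)
    (Set.finite_Iic ⌊((x : ℝ) ^ k) ^ η⌋₊)).subset ?_
  rintro v ⟨j, hj, rfl⟩
  exact ⟨j, Nat.le_floor hj, rfl⟩

/-- **Generic sequences of moved powers.** -/
theorem generic (hk : 1 ≤ k) (hQ : Slow Q) (hη0 : 0 < η) (hη1 : η ≤ 1) :
    ∃ G : Set ↥(Seqs k Q η), IsGδ G ∧ Dense G ∧ ∀ b ∈ G, ∀ t : ℕ, ∃ᶠ N : ℕ in atTop,
      (cnt b.1 t N : ℝ) ≤ (N : ℝ) ^ (1 - (η / 2) ^ (t + 2)) := by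
  haveI := compact_Seqs k Q η
  refine ⟨⋂ p : ℕ × ℕ, Good k Q η p.1 p.2, ?_, ?_, ?_⟩
  · exact IsGδ.iInter fun p => (isOpen_Good hk p.1 p.2).isGδ
  · exact dense_iInter_of_isOpen (fun p => isOpen_Good hk p.1 p.2)
      (fun p => dense_Good hk hQ hη0 hη1 p.1 p.2)
  · intro b hb t
    rw [Filter.frequently_atTop]
    intro M
    rw [Set.mem_iInter] at hb
    obtain ⟨N, h1, h2⟩ := hb (t, M)
    exact ⟨N, h1, h2⟩

/-- Every residue class contains integers which are not represented. -/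
lemma cnt_residue {b : ℕ → ℕ} {t : ℕ} {e : ℝ} (he : 0 < e)
    (h : ∃ᶠ N : ℕ in atTop, (cnt b t N : ℝ) ≤ (N : ℝ) ^ (1 - e)) (m r : ℕ) (hm : 1 ≤ m) :
    ∃ᶠ n : ℕ in atTop, n ≡ r [MOD m] ∧ ¬ Rp b t n := by
  rw [Filter.Frequently]
  intro hcon
  obtain ⟨n₀, hn₀⟩ := eventually_atTop.1 hcon
  -- all the `n₀ * m + r + m * i` are represented
  have hrep : ∀ i, Rp b t (n₀ * m + r + m * i) := by
    intro i
    have h1 := hn₀ (n₀ * m + r + m * i) (by nlinarith [Nat.zero_le r, Nat.zero_le (m * i)])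
    simp only [not_and, not_not] at h1
    refine h1 ?_
    unfold Nat.ModEq
    rw [Nat.add_mul_mod_self_left, mul_comm n₀ m, Nat.mul_add_mod]
  have hcount : ∀ i, i ≤ cnt b t (n₀ * m + r + m * i) := by
    intro i
    unfold cnt
    rw [← Finset.card_range i]
    conv_rhs => rw [Finset.card_range]
    refine Finset.card_le_card_of_injOn (fun l => n₀ * m + r + m * l) ?_ ?_
    · intro l hl
      rw [Finset.mem_coe, Finset.mem_range] at hl
      rw [Finset.mem_coe, Finset.mem_filter, Finset.mem_range]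
      refine ⟨?_, hrep l⟩
      have := Nat.mul_lt_mul_of_pos_left hl (by omega : 0 < m)
      show n₀ * m + r + m * l < n₀ * m + r + m * i
      omega
    · intro l _ l' _ hll
      simp only at hll
      have h1 : m * l = m * l' := by omega
      exact Nat.eq_of_mul_eq_mul_left (by omega) h1
  have E1 := ((tendsto_rpow_atTop he).comp tendsto_natCast_atTop_atTop).eventually_gt_atTop
    (2 * (m : ℝ))
  obtain ⟨N, h1, h2, h3⟩ := (h.and_eventually (E1.and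
    (eventually_ge_atTop (2 * (n₀ * m + r + m) + 1)))).exists
  simp only [Function.comp_apply] at h2
  have hN1 : 1 ≤ N := by omega
  have hN0 : (0 : ℝ) < N := by exact_mod_cast hN1
  obtain ⟨i, hi⟩ : ∃ i, i = (N - (n₀ * m + r)) / m := ⟨_, rfl⟩
  have h4 : n₀ * m + r + m * i ≤ N := by
    have := Nat.mul_div_le (N - (n₀ * m + r)) m
    rw [← hi] at this
    omega
  have h5 : N < n₀ * m + r + m * i + m := by
    have := Nat.lt_mul_div_succ (N - (n₀ * m + r)) (by omega : 0 < m)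
    rw [← hi, mul_add, mul_one] at this
    omega
  have h6 : i ≤ cnt b t N := by
    refine (hcount i).trans ?_
    unfold cnt
    refine Finset.card_le_card ?_
    refine Finset.filter_subset_filter _ ?_
    exact Finset.range_subset_range.2 h4
  have h7 : (N : ℝ) < 2 * (m * i) := by
    have : N < 2 * (m * i) := by omega
    exact_mod_cast this
  have h8 : (i : ℝ) ≤ (N : ℝ) ^ (1 - e) := by
    refine le_trans ?_ h1
    exact_mod_cast h6
  have h9 : (N : ℝ) ^ (1 - e) * (N : ℝ) ^ e = N := by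
    rw [← Real.rpow_add hN0]
    rw [sub_add_cancel, Real.rpow_one]
  have h10 : 0 < (N : ℝ) ^ (1 - e) := Real.rpow_pos_of_pos hN0 _
  have h11 : (0 : ℝ) < m := by exact_mod_cast hm
  nlinarith [mul_lt_mul_of_pos_left h2 h10, mul_le_mul_of_nonneg_left h8 h11.le]

/-- The factorials of the double logarithms grow slowly. -/
lemma slow_factorial (ε : ℝ) (hε : 0 < ε) : ∀ᶠ x : ℕ in atTop,
    (((Nat.log 2 (Nat.log 2 x)).factorial : ℕ) : ℝ) ≤ (x : ℝ) ^ ε := by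
    have hlog : Tendsto (Nat.log 2) atTop atTop := by
      refine Filter.tendsto_atTop.2 fun c => ?_
      filter_upwards [eventually_ge_atTop (2 ^ c)] with x hx
      exact Nat.le_log_of_pow_le (by norm_num) hx
    have h1 := tendsto_pow_const_div_const_pow_of_one_lt 2 (by norm_num : (1 : ℝ) < 2)
    have h2 := (hlog.comp hlog).eventually (h1.eventually_le_const hε)
    filter_upwards [h2, eventually_ge_atTop 2] with x hx hx2
    simp only [Function.comp_apply] at hx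
    obtain ⟨L, hL⟩ : ∃ L, L = Nat.log 2 x := ⟨_, rfl⟩
    obtain ⟨m, hm⟩ : ∃ m, m = Nat.log 2 L := ⟨_, rfl⟩
    rw [← hL, ← hm] at hx
    rw [← hL, ← hm]
    have hL1 : L ≠ 0 := by
      have := Nat.log_pos (by norm_num : 1 < 2) hx2
      omega
    have h3 : 2 ^ L ≤ x := by rw [hL]; exact Nat.pow_log_le_self _ (by omega)
    have h4 : 2 ^ m ≤ L := by rw [hm]; exact Nat.pow_log_le_self _ hL1
    have h5 : m.factorial ≤ 2 ^ (m ^ 2) := by
      calc m.factorial ≤ m ^ m := Nat.factorial_le_pow m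
        _ ≤ (2 ^ m) ^ m := Nat.pow_le_pow_left Nat.lt_two_pow_self.le _
        _ = 2 ^ (m ^ 2) := by rw [← pow_mul, sq]
    rw [div_le_iff₀ (by positivity)] at hx
    have h6 : (m : ℝ) ^ 2 ≤ ε * L := by
      refine hx.trans ?_
      refine mul_le_mul_of_nonneg_left ?_ hε.le
      exact_mod_cast h4
    calc ((m.factorial : ℕ) : ℝ) ≤ (2 : ℝ) ^ (m ^ 2) := by exact_mod_cast h5
      _ = (2 : ℝ) ^ (((m : ℝ)) ^ 2) := by
          rw [← Real.rpow_natCast]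
          push_cast
          rfl
      _ ≤ (2 : ℝ) ^ (L * ε) := by
          refine Real.rpow_le_rpow_of_exponent_le (by norm_num) ?_
          linarith
      _ = ((2 : ℝ) ^ L) ^ ε := by
          rw [Real.rpow_mul (by norm_num), Real.rpow_natCast]
      _ ≤ (x : ℝ) ^ ε := by
          refine Real.rpow_le_rpow (by positivity) ?_ hε.le
          exact_mod_cast h3

/-- Slowly growing moduli which are eventually divisible by every given integer. -/
lemma exists_slow : ∃ Q : ℕ → ℕ, Slow Q ∧ ∀ m : ℕ, 1 ≤ m → ∀ᶠ x : ℕ in atTop, m ∣ Q x := by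
  refine ⟨fun x => (Nat.log 2 (Nat.log 2 x)).factorial, ⟨?_, ?_, ?_⟩, ?_⟩
  · intro x
    exact Nat.factorial_pos _
  · intro x
    exact Nat.factorial_dvd_factorial (Nat.log_mono_right (Nat.log_mono_right (by omega)))
  · exact fun ε hε => slow_factorial ε hε
  · intro m hm
    filter_upwards [eventually_ge_atTop (2 ^ 2 ^ m)] with x hx
    refine Nat.dvd_factorial hm ?_
    refine Nat.le_log_of_pow_le (by norm_num) ?_
    exact Nat.le_log_of_pow_le (by norm_num) hx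

end Pool.Agent.R500.WB
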